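import Pool.Agent.H78R3.LF.Prob

/-!
Typical digit vectors, counting, and the covering bound for the Hausdorff dimension.
-/

open MeasureTheory Set Filter Topology ProbabilityTheory
open scoped ENNReal NNReal Real

namespace H78R3.LF

noncomputable section

/-- digit positions up to level `J` -/
def sJ (A J : ℕ) : Finset (Idx A) := Finset.univ ×ˢ Finset.range (J + 1)

/-- inverse square root of the probability of a digit vector -/
def wt {A : ℕ} (κs : ℕ → Par) (J : ℕ) (v : (i : sJ A J) → ℤ) : ℝ≥0∞ :=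
  ∏ i : sJ A J, (ENNReal.ofReal (√(cm (κs i.1.2) (v i))))⁻¹

/-- the bound for the expectation of the weight -/
def MJ (A : ℕ) (κs : ℕ → Par) (J : ℕ) : ℝ≥0∞ :=
  ∏ i ∈ sJ A J, ENNReal.ofReal (√(3 / (2 * (κs i.2 : ℝ))))

lemma MJ_ne_zero (A : ℕ) (κs : ℕ → Par) (J : ℕ) : MJ A κs J ≠ 0 := by
  unfold MJ
  rw [Finset.prod_ne_zero_iff]
  intro i _
  have := (κs i.2).2.1
  have h : 0 < √(3 / (2 * (κs i.2 : ℝ))) := Real.sqrt_pos.2 (by positivity)
  simpa using h

lemma MJ_ne_top (A : ℕ) (κs : ℕ → Par) (J : ℕ) : MJ A κs J ≠ ∞ :=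
  ENNReal.prod_ne_top fun _ _ => ENNReal.ofReal_ne_top

/-- typical digit vectors -/
def typ (A : ℕ) (κs : ℕ → Par) (J : ℕ) : Set ((i : sJ A J) → ℤ) :=
  {v | wt κs J v < 4 * MJ A κs J}

lemma typ_le {A : ℕ} (κs : ℕ → Par) (J : ℕ) (v : (i : sJ A J) → ℤ) (hv : v ∈ typ A κs J) :
    1 ≤ (4 * MJ A κs J) ^ 2 * Measure.pi (fun i : sJ A J => dm (κs i.1.2)) {v} := by
  have hM0 := MJ_ne_zero A κs J
  have hMt := MJ_ne_top A κs J
  rw [Measure.pi_singleton]
  simp_rw [dm_singleton]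
  have h1 : ∀ i : sJ A J, ENNReal.ofReal (cm (κs i.1.2) (v i))
      = (ENNReal.ofReal (√(cm (κs i.1.2) (v i)))) ^ 2 := by
    intro i
    rw [← ENNReal.ofReal_pow (Real.sqrt_nonneg _), Real.sq_sqrt (cm_nonneg (κs i.1.2).2.1 _)]
  simp_rw [h1]
  rw [Finset.prod_pow]
  have hv : wt κs J v < 4 * MJ A κs J := hv
  unfold wt at hv
  rw [← ENNReal.prod_inv_distrib (fun i _ j _ _ => Or.inr ENNReal.ofReal_ne_top)] at hv
  set a := ∏ i : sJ A J, ENNReal.ofReal (√(cm (κs i.1.2) (v i))) with ha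
  have h4 : (4 : ℝ≥0∞) * MJ A κs J ≠ 0 := by simp [hM0]
  have h4t : (4 : ℝ≥0∞) * MJ A κs J ≠ ∞ := ENNReal.mul_ne_top (by simp) hMt
  have h2 : (4 * MJ A κs J)⁻¹ ≤ a := by
    rw [ENNReal.inv_le_iff_inv_le]; exact hv.le
  have h3 : 1 ≤ 4 * MJ A κs J * a := by
    calc (1 : ℝ≥0∞) = (4 * MJ A κs J) * (4 * MJ A κs J)⁻¹ := (ENNReal.mul_inv_cancel h4 h4t).symm
      _ ≤ _ := by gcongr
  calc (1 : ℝ≥0∞) = 1 ^ 2 := by simp
    _ ≤ (4 * MJ A κs J * a) ^ 2 := by gcongr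
    _ = _ := by rw [mul_pow]

lemma typ_count {A : ℕ} (κs : ℕ → Par) (J : ℕ) (c : ℝ≥0∞) :
    ∑' v : ((i : sJ A J) → ℤ), (typ A κs J).indicator (fun _ => c) v
      ≤ (4 * MJ A κs J) ^ 2 * c := by
  have hone : ∑' v : ((i : sJ A J) → ℤ), Measure.pi (fun i : sJ A J => dm (κs i.1.2)) {v} = 1 := by
    have h := lintegral_countable' (μ := Measure.pi (fun i : sJ A J => dm (κs i.1.2)))
      (fun _ : ((i : sJ A J) → ℤ) => (1 : ℝ≥0∞))
    rw [lintegral_one, measure_univ] at h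
    simpa using h.symm
  calc ∑' v : ((i : sJ A J) → ℤ), (typ A κs J).indicator (fun _ => c) v
      ≤ ∑' v : ((i : sJ A J) → ℤ), (4 * MJ A κs J) ^ 2 * c
          * Measure.pi (fun i : sJ A J => dm (κs i.1.2)) {v} := by
        refine ENNReal.tsum_le_tsum fun v => ?_
        by_cases hv : v ∈ typ A κs J
        · rw [indicator_of_mem hv]
          have := typ_le κs J v hv
          calc c = 1 * c := (one_mul c).symm
            _ ≤ ((4 * MJ A κs J) ^ 2 * Measure.pi (fun i : sJ A J => dm (κs i.1.2)) {v}) * c := by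
              gcongr
            _ = _ := by ring
        · rw [indicator_of_notMem hv]; exact zero_le
    _ = _ := by rw [ENNReal.tsum_mul_left, hone, mul_one]

lemma typ_prob {A : ℕ} (κs : ℕ → Par) (J : ℕ) :
    (PP A κs) {ω | 4 * MJ A κs J ≤ wt κs J ((sJ A J).restrict ω)} ≤ 1 / 4 := by
  have hM0 := MJ_ne_zero A κs J
  have hMt := MJ_ne_top A κs J
  have h4 : (4 : ℝ≥0∞) * MJ A κs J ≠ 0 := by simp [hM0]
  have h4t : (4 : ℝ≥0∞) * MJ A κs J ≠ ∞ := ENNReal.mul_ne_top (by simp) hMt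
  have he : ∀ ω : Idx A → ℤ, wt κs J ((sJ A J).restrict ω)
      = ∏ i ∈ sJ A J, (fun (i : Idx A) (n : ℤ) => (ENNReal.ofReal (√(cm (κs i.2) n)))⁻¹) i (ω i) := by
    intro ω
    unfold wt
    exact Finset.prod_coe_sort (sJ A J) (fun i => (ENNReal.ofReal (√(cm (κs i.2) (ω i))))⁻¹)
  have hmeas : Measurable fun ω : Idx A → ℤ => wt κs J ((sJ A J).restrict ω) := by
    simp_rw [he]
    refine Finset.measurable_prod _ fun i _ => ?_
    exact (Measurable.of_discrete (f := fun n : ℤ =>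
      (ENNReal.ofReal (√(cm (κs i.2) n)))⁻¹)).comp (measurable_pi_apply i)
  have hle : ∫⁻ ω, wt κs J ((sJ A J).restrict ω) ∂(PP A κs) ≤ MJ A κs J := by
    simp_rw [he]
    rw [PP_lint κs (sJ A J) (fun (i : Idx A) (n : ℤ) => (ENNReal.ofReal (√(cm (κs i.2) n)))⁻¹)]
    unfold MJ
    exact Finset.prod_le_prod' fun i _ => dm_inv_sqrt (κs i.2)
  calc _ ≤ (∫⁻ ω, wt κs J ((sJ A J).restrict ω) ∂(PP A κs)) / (4 * MJ A κs J) :=
        meas_ge_le_lintegral_div hmeas.aemeasurable h4 h4t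
    _ ≤ MJ A κs J / (4 * MJ A κs J) := by gcongr
    _ = 1 / 4 := by
        rw [ENNReal.div_eq_div_iff (by simp) (by simp) h4 h4t]
        ring

lemma tail_prob {A : ℕ} (hA : 0 < A) (ρ κ : Par) {b : ℝ} (hb : 0 < b) (hb2 : b ≤ 1 / 2) (J : ℕ)
    (i : Fin A) :
    (PP A (kap ρ κ)) {ω | ENNReal.ofReal (4 * A / κ * b ^ J) ≤ TT b J i ω}
      ≤ ENNReal.ofReal (1 / (4 * A)) := by
  have hk : 0 < (κ : ℝ) := κ.2.1
  have hA' : (0 : ℝ) < A := by exact_mod_cast hA
  have hpos : 0 < 4 * A / (κ : ℝ) * b ^ J := by positivity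
  calc _ ≤ (∫⁻ ω, TT b J i ω ∂(PP A (kap ρ κ))) / ENNReal.ofReal (4 * A / κ * b ^ J) :=
        meas_ge_le_lintegral_div (measurable_TT b J i).aemeasurable (by simpa using hpos)
          ENNReal.ofReal_ne_top
    _ ≤ ENNReal.ofReal (b ^ J / κ) / ENNReal.ofReal (4 * A / κ * b ^ J) := by
        gcongr; exact lint_TT ρ κ hb hb2 J i
    _ = ENNReal.ofReal (1 / (4 * A)) := by
        rw [← ENNReal.ofReal_div_of_pos hpos]
        congr 1
        field_simp

/-- good events -/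
def Good (A : ℕ) (κs : ℕ → Par) (b W : ℝ) (J : ℕ) : Set (Idx A → ℤ) :=
  {ω | wt κs J ((sJ A J).restrict ω) < 4 * MJ A κs J} ∩
    ⋂ i : Fin A, {ω | TT b J i ω < ENNReal.ofReal (W * b ^ J)}

lemma measurableSet_Good (A : ℕ) (κs : ℕ → Par) (b W : ℝ) (J : ℕ) :
    MeasurableSet (Good A κs b W J) := by
  refine MeasurableSet.inter ?_ (MeasurableSet.iInter fun i => ?_)
  · have hm : Measurable (wt (A := A) κs J) := by
      unfold wt
      refine Finset.measurable_prod _ fun i _ => ?_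
      exact (Measurable.of_discrete (f := fun n : ℤ =>
        (ENNReal.ofReal (√(cm (κs i.1.2) n)))⁻¹)).comp (measurable_pi_apply i)
    exact measurableSet_lt (hm.comp (Finset.measurable_restrict _)) measurable_const
  · exact measurableSet_lt (measurable_TT b J i) measurable_const

lemma Good_prob {A : ℕ} (hA : 0 < A) (ρ κ : Par) {b : ℝ} (hb : 0 < b) (hb2 : b ≤ 1 / 2) (J : ℕ) :
    1 / 2 ≤ (PP A (kap ρ κ)) (Good A (kap ρ κ) b (4 * A / κ) J) := by
  have hA' : (0 : ℝ) < A := by exact_mod_cast hA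
  have hc : (PP A (kap ρ κ)) (Good A (kap ρ κ) b (4 * A / κ) J)ᶜ ≤ 1 / 2 := by
    have hsub : (Good A (kap ρ κ) b (4 * A / κ) J)ᶜ ⊆
        {ω | 4 * MJ A (kap ρ κ) J ≤ wt (kap ρ κ) J ((sJ A J).restrict ω)} ∪
        ⋃ i : Fin A, {ω | ENNReal.ofReal (4 * A / κ * b ^ J) ≤ TT b J i ω} := by
      intro ω hω
      by_contra hcon
      apply hω
      simp only [mem_union, mem_iUnion, mem_ofPred_eq, not_or, not_exists, not_le] at hcon
      exact ⟨hcon.1, mem_iInter.2 hcon.2⟩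
    calc _ ≤ _ := measure_mono hsub
      _ ≤ 1 / 4 + ∑ i : Fin A, ENNReal.ofReal (1 / (4 * A)) := by
          refine (measure_union_le _ _).trans ?_
          refine add_le_add (typ_prob _ _) ?_
          refine (measure_iUnion_fintype_le _ _).trans ?_
          exact Finset.sum_le_sum fun i _ => tail_prob hA ρ κ hb hb2 J i
      _ = 1 / 2 := by
          rw [Finset.sum_const, Finset.card_univ, Fintype.card_fin, nsmul_eq_mul,
            ← ENNReal.ofReal_natCast, ← ENNReal.ofReal_mul (by positivity)]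
          have e1 : (A : ℝ) * (1 / (4 * A)) = 1 / 4 := by field_simp
          have e2 : (1 / 4 : ℝ≥0∞) = ENNReal.ofReal (1 / 4) := by
            rw [ENNReal.ofReal_div_of_pos (by norm_num)]; simp
          have e3 : (1 / 2 : ℝ≥0∞) = ENNReal.ofReal (1 / 2) := by
            rw [ENNReal.ofReal_div_of_pos (by norm_num)]; simp
          rw [e1, e2, e3, ← ENNReal.ofReal_add (by norm_num) (by norm_num)]
          norm_num
  have hm := measurableSet_Good A (kap ρ κ) b (4 * A / κ) J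
  have h1 := prob_add_prob_compl (μ := PP A (kap ρ κ)) hm
  have h2 : (1 : ℝ≥0∞) ≤ (PP A (kap ρ κ)) (Good A (kap ρ κ) b (4 * A / κ) J) + 1 / 2 := by
    calc (1 : ℝ≥0∞) = _ := h1.symm
      _ ≤ _ := by gcongr
  have h3 : (1 : ℝ≥0∞) - 1 / 2 ≤ (PP A (kap ρ κ)) (Good A (kap ρ κ) b (4 * A / κ) J) :=
    tsub_le_iff_right.2 h2
  have h4 : (1 : ℝ≥0∞) - 1 / 2 = 1 / 2 := by
    rw [one_div]; exact ENNReal.one_sub_inv_two
  rwa [h4] at h3

lemma freq_prob {Ω : Type*} [MeasurableSpace Ω] (μ : Measure Ω) [IsFiniteMeasure μ]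
    (S : ℕ → Set Ω) (hS : ∀ J, MeasurableSet (S J)) (c : ℝ≥0∞) (hc : ∀ J, c ≤ μ (S J)) :
    c ≤ μ {ω | ∃ᶠ J in atTop, ω ∈ S J} := by
  have he : {ω | ∃ᶠ J in atTop, ω ∈ S J} = ⋂ K : ℕ, ⋃ J : ℕ, ⋃ _ : K ≤ J, S J := by
    ext ω
    simp only [mem_ofPred_eq, frequently_atTop, mem_iInter, mem_iUnion, exists_prop]
    try rfl
  rw [he]
  have ht := tendsto_measure_iInter_atTop (μ := μ) (s := fun K : ℕ => ⋃ J : ℕ, ⋃ _ : K ≤ J, S J)
    (fun K => (MeasurableSet.iUnion fun J => MeasurableSet.iUnion fun _ => hS J).nullMeasurableSet)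
    (by
      intro K L hKL
      simp only [iUnion_subset_iff]
      intro J hJ
      exact subset_iUnion₂_of_subset J (hKL.trans hJ) (subset_refl _))
    ⟨0, measure_ne_top _ _⟩
  refine ge_of_tendsto' ht fun K => ?_
  exact (hc K).trans (measure_mono (subset_iUnion₂_of_subset K le_rfl (subset_refl _)))

end

end H78R3.LF
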