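import Pool.Agent.H78R3.LF.Cover

/-!
The random vector in `ℝ^d`, its almost sure location in a set of small Hausdorff dimension.
-/

open MeasureTheory Set Filter Topology ProbabilityTheory
open scoped ENNReal NNReal Real

namespace H78R3.LF

noncomputable section

/-- Euclidean space -/
abbrev Rd (d : ℕ) := EuclideanSpace ℝ (Fin d)

/-- partial sums from a digit vector -/
def ctr {A : ℕ} (b : ℝ) (J : ℕ) (v : (i : sJ A J) → ℤ) (i : Fin A) : ℝ :=
  ∑ j : Fin (J + 1), b ^ (j : ℕ) * (v ⟨(i, (j : ℕ)), by have := j.2; simp [sJ]; omega⟩ : ℝ)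

lemma ctr_restrict {A : ℕ} (b : ℝ) (J : ℕ) (ω : Idx A → ℤ) (i : Fin A) :
    ctr b J ((sJ A J).restrict ω) i
      = ∑ j ∈ Finset.range (J + 1), b ^ j * (ω (i, j) : ℝ) := by
  unfold ctr
  rw [Finset.sum_range]
  rfl

/-- the random vector -/
def XV {A : ℕ} (d : ℕ) (b : ℝ) (ω : Idx A → ℤ) : Rd d :=
  WithLp.toLp 2 (fun i : Fin d => if h : (i : ℕ) < A then XX b ⟨i, h⟩ ω else 0)

lemma measurable_XV {A : ℕ} (d : ℕ) (b : ℝ) : Measurable (XV (A := A) d b) := by
  unfold XV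
  refine (WithLp.measurable_toLp 2 (Fin d → ℝ)).comp ?_
  refine measurable_pi_lambda _ fun i => ?_
  by_cases h : (i : ℕ) < A
  · simp only [h, dite_true]; exact measurable_XX b _
  · simp only [h, dite_false]; exact measurable_const

/-- boxes -/
def box {A : ℕ} (d : ℕ) (b W : ℝ) (J : ℕ) (v : (i : sJ A J) → ℤ) : Set (Rd d) :=
  {x | ∀ i : Fin d, |x i - (if h : (i : ℕ) < A then ctr b J v ⟨i, h⟩ else 0)| ≤ W * b ^ J}

lemma isClosed_box {A : ℕ} (d : ℕ) (b W : ℝ) (J : ℕ) (v : (i : sJ A J) → ℤ) :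
    IsClosed (box d b W J v) := by
  unfold box
  rw [ofPred_forall]
  refine isClosed_iInter fun i => ?_
  exact isClosed_le (by fun_prop) continuous_const

lemma ediam_box {A : ℕ} (d : ℕ) {b W : ℝ} (hb : 0 < b) (hW : 0 ≤ W) (J : ℕ)
    (v : (i : sJ A J) → ℤ) :
    Metric.ediam (box d b W J v) ≤ ENNReal.ofReal (2 * W * √d * b ^ J) := by
  refine Metric.ediam_le_of_forall_dist_le fun x hx y hy => ?_
  rw [EuclideanSpace.dist_eq]
  have h1 : ∀ i : Fin d, dist (x i) (y i) ^ 2 ≤ (2 * W * b ^ J) ^ 2 := by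
    intro i
    have hxi := abs_le.1 (hx i)
    have hyi := abs_le.1 (hy i)
    have : dist (x i) (y i) ≤ 2 * W * b ^ J := by
      rw [Real.dist_eq, abs_le]
      constructor <;> linarith [hxi.1, hxi.2, hyi.1, hyi.2]
    exact pow_le_pow_left₀ dist_nonneg this 2
  have h2 : ∑ i : Fin d, dist (x i) (y i) ^ 2 ≤ d * (2 * W * b ^ J) ^ 2 := by
    calc _ ≤ ∑ _i : Fin d, (2 * W * b ^ J) ^ 2 := Finset.sum_le_sum fun i _ => h1 i
      _ = _ := by rw [Finset.sum_const, Finset.card_univ, Fintype.card_fin, nsmul_eq_mul]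
  calc _ ≤ √(d * (2 * W * b ^ J) ^ 2) := Real.sqrt_le_sqrt h2
    _ = √d * (2 * W * b ^ J) := by
        rw [Real.sqrt_mul (by positivity), Real.sqrt_sq (by positivity)]
    _ = _ := by ring

/-- the small set -/
def GS (A d : ℕ) (κs : ℕ → Par) (b W : ℝ) : Set (Rd d) :=
  {x | ∃ᶠ J in atTop, x ∈ ⋃ v ∈ typ A κs J, box d b W J v}

lemma measurableSet_GS (A d : ℕ) (κs : ℕ → Par) (b W : ℝ) :
    MeasurableSet (GS A d κs b W) := by
  have he : GS A d κs b W = ⋂ K : ℕ, ⋃ J : ℕ, ⋃ _ : K ≤ J, ⋃ v ∈ typ A κs J, box d b W J v := by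
    ext x
    unfold GS
    simp only [mem_ofPred_eq, frequently_atTop, mem_iInter, mem_iUnion, exists_prop]
  rw [he]
  refine MeasurableSet.iInter fun K => MeasurableSet.iUnion fun J => MeasurableSet.iUnion fun _ => ?_
  exact MeasurableSet.biUnion (to_countable _) fun v _ => (isClosed_box d b W J v).measurableSet

/-- the law of `XV` gives positive mass to the small set -/
lemma GS_prob {A : ℕ} (hA : 0 < A) (d : ℕ) (ρ κ : Par) {b : ℝ} (hb : 0 < b) (hb2 : b ≤ 1 / 2) :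
    1 / 2 ≤ ((PP A (kap ρ κ)).map (XV d b)) (GS A d (kap ρ κ) b (4 * A / κ)) := by
  have hk : 0 < (κ : ℝ) := κ.2.1
  rw [Measure.map_apply (measurable_XV d b) (measurableSet_GS A d _ _ _)]
  refine (freq_prob (PP A (kap ρ κ)) (Good A (kap ρ κ) b (4 * A / κ))
    (measurableSet_Good A _ _ _) (1 / 2) (Good_prob hA ρ κ hb hb2)).trans (measure_mono ?_)
  intro ω hω
  have hω' : ∃ᶠ J in atTop, ω ∈ Good A (kap ρ κ) b (4 * A / κ) J := hω
  show ∃ᶠ J in atTop, XV d b ω ∈ ⋃ v ∈ typ A (kap ρ κ) J, box d b (4 * A / κ) J v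
  refine hω'.mono fun J hJ => ?_
  refine mem_iUnion₂.2 ⟨(sJ A J).restrict ω, hJ.1, ?_⟩
  intro i
  have hW : 0 ≤ 4 * (A : ℝ) / κ * b ^ J := by positivity
  unfold XV
  by_cases h : (i : ℕ) < A
  · simp only [h, dite_true]
    rw [ctr_restrict]
    have h2 := mem_iInter.1 hJ.2 ⟨i, h⟩
    exact XX_approx hb J ⟨i, h⟩ ω (le_of_lt h2) hW
  · simp only [h, dite_false]
    simpa using hW

lemma MJ_sq (A : ℕ) (ρ κ : Par) (J : ℕ) :
    (MJ A (kap ρ κ) J) ^ 2 = ENNReal.ofReal ((3 / (2 * (ρ : ℝ))) ^ A *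
      ((3 / (2 * (κ : ℝ))) ^ A) ^ J) := by
  have hr := ρ.2.1
  have hk := κ.2.1
  unfold MJ sJ
  rw [← Finset.prod_pow]
  have h1 : ∀ i : Idx A, (ENNReal.ofReal (√(3 / (2 * (kap ρ κ i.2 : ℝ))))) ^ 2
      = ENNReal.ofReal (3 / (2 * (kap ρ κ i.2 : ℝ))) := by
    intro i
    have := (kap ρ κ i.2).2.1
    rw [← ENNReal.ofReal_pow (Real.sqrt_nonneg _), Real.sq_sqrt (by positivity)]
  simp_rw [h1]
  rw [Finset.prod_product]
  simp only [Finset.prod_const, Finset.card_univ, Fintype.card_fin]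
  rw [Finset.prod_range_succ']
  have h2 : ∀ j : ℕ, kap ρ κ (j + 1) = κ := fun j => rfl
  have h0 : kap ρ κ 0 = ρ := rfl
  simp_rw [h2, h0]
  rw [Finset.prod_const, Finset.card_range, ← ENNReal.ofReal_pow (by positivity),
    ← ENNReal.ofReal_mul (by positivity), ← ENNReal.ofReal_pow (by positivity)]
  congr 1
  rw [mul_pow, ← pow_mul, ← pow_mul, mul_comm J A]
  ring

/-- indices of the cover -/
abbrev CI (A : ℕ) : Type := Σ J : ℕ, ((i : sJ A J) → ℤ)

/-- pieces of the cover -/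
def tset (A d : ℕ) (κs : ℕ → Par) (b W : ℝ) (K : ℕ) (p : CI A) : Set (Rd d) :=
  {x | K ≤ p.1 ∧ p.2 ∈ typ A κs p.1 ∧ x ∈ box d b W p.1 p.2}

/-- dimension bound -/
lemma GS_dim (A d : ℕ) (ρ κ : Par) {b W : ℝ} (hb : 0 < b) (hb1 : b < 1) (hW : 0 ≤ W) {s : ℝ}
    (hs : 0 < s) (hq : (3 / (2 * (κ : ℝ))) ^ A * b ^ s < 1) :
    dimH (GS A d (kap ρ κ) b W) ≤ ENNReal.ofReal s := by
  have hr := ρ.2.1
  have hk := κ.2.1
  set D : ℝ := 2 * W * √d with hD
  have hD0 : 0 ≤ D := by positivity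
  -- the series
  set u : ℕ → ℝ≥0∞ := fun J => (4 * MJ A (kap ρ κ) J) ^ 2 * (ENNReal.ofReal (D * b ^ J)) ^ s
    with hu
  have hub : ∀ J, u J = ENNReal.ofReal ((16 * (3 / (2 * (ρ : ℝ))) ^ A * D ^ s) *
      ((3 / (2 * (κ : ℝ))) ^ A * b ^ s) ^ J) := by
    intro J
    simp only [hu]
    rw [mul_pow, MJ_sq, ENNReal.ofReal_rpow_of_nonneg (by positivity) hs.le,
      show ((4 : ℝ≥0∞) ^ 2) = ENNReal.ofReal 16 by norm_num,
      ← ENNReal.ofReal_mul (by norm_num), ← ENNReal.ofReal_mul (by positivity)]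
    congr 1
    rw [Real.mul_rpow hD0 (by positivity), mul_pow, ← Real.rpow_natCast b J, ← Real.rpow_mul hb.le,
      mul_comm (J : ℝ) s, Real.rpow_mul hb.le, Real.rpow_natCast]
    ring
  have hq0 : 0 ≤ (3 / (2 * (κ : ℝ))) ^ A * b ^ s := by positivity
  have husum : ∑' J, u J ≠ ∞ := by
    simp_rw [hub]
    rw [← ENNReal.ofReal_tsum_of_nonneg (fun J => by positivity)
      ((summable_geometric_of_lt_one hq0 hq).mul_left _)]
    exact ENNReal.ofReal_ne_top
  have htend := ENNReal.tendsto_sum_nat_add u husum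
  -- cover
  have hdiam : ∀ K (p : CI A), Metric.ediam (tset A d (kap ρ κ) b W K p)
      ≤ ENNReal.ofReal (D * b ^ K) := by
    intro K p
    by_cases h : K ≤ p.1
    · calc Metric.ediam (tset A d (kap ρ κ) b W K p) ≤ Metric.ediam (box d b W p.1 p.2) :=
            Metric.ediam_mono fun x hx => hx.2.2
        _ ≤ ENNReal.ofReal (2 * W * √d * b ^ p.1) := ediam_box d hb hW p.1 p.2
        _ ≤ _ := by
            apply ENNReal.ofReal_le_ofReal
            have : b ^ p.1 ≤ b ^ K := pow_le_pow_of_le_one hb.le hb1.le h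
            gcongr
    · have : tset A d (kap ρ κ) b W K p = ∅ := by
        ext x
        simp only [mem_empty_iff_false, iff_false]
        exact fun hx => h hx.1
      rw [this]
      simp
  have hsub : ∀ K, GS A d (kap ρ κ) b W ⊆ ⋃ p : CI A, tset A d (kap ρ κ) b W K p := by
    intro K x hx
    have hx' : ∃ᶠ J in atTop, x ∈ ⋃ v ∈ typ A (kap ρ κ) J, box d b W J v := hx
    obtain ⟨J, hKJ, hJ⟩ := (frequently_atTop.1 hx') K
    obtain ⟨v, hv, hxv⟩ := mem_iUnion₂.1 hJ
    exact mem_iUnion.2 ⟨⟨J, v⟩, hKJ, hv, hxv⟩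
  have hsum : ∀ K, ∑' p : CI A, Metric.ediam (tset A d (kap ρ κ) b W K p) ^ s
      ≤ ∑' k, u (k + K) := by
    intro K
    rw [show (∑' p : CI A, Metric.ediam (tset A d (kap ρ κ) b W K p) ^ s)
      = ∑' J : ℕ, ∑' v : ((i : sJ A J) → ℤ),
        Metric.ediam (tset A d (kap ρ κ) b W K ⟨J, v⟩) ^ s from
        ENNReal.tsum_sigma' (fun p : CI A => Metric.ediam (tset A d (kap ρ κ) b W K p) ^ s)]
    have hinner : ∀ J : ℕ, ∑' v : ((i : sJ A J) → ℤ),
        Metric.ediam (tset A d (kap ρ κ) b W K ⟨J, v⟩) ^ s ≤ if K ≤ J then u J else 0 := by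
      intro J
      by_cases h : K ≤ J
      · rw [if_pos h]
        refine le_trans ?_ (typ_count (kap ρ κ) J ((ENNReal.ofReal (D * b ^ J)) ^ s))
        refine ENNReal.tsum_le_tsum fun v => ?_
        by_cases hv : v ∈ typ A (kap ρ κ) J
        · rw [indicator_of_mem hv]
          refine ENNReal.rpow_le_rpow ?_ hs.le
          calc Metric.ediam (tset A d (kap ρ κ) b W K ⟨J, v⟩) ≤ Metric.ediam (box d b W J v) :=
                Metric.ediam_mono fun x hx => hx.2.2
            _ ≤ _ := ediam_box d hb hW J v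
        · rw [indicator_of_notMem hv]
          have : tset A d (kap ρ κ) b W K ⟨J, v⟩ = ∅ := by
            ext x
            simp only [mem_empty_iff_false, iff_false]
            exact fun hx => hv hx.2.1
          rw [this, Metric.ediam_empty, ENNReal.zero_rpow_of_pos hs]
      · rw [if_neg h]
        have : ∀ v : ((i : sJ A J) → ℤ), Metric.ediam (tset A d (kap ρ κ) b W K ⟨J, v⟩) ^ s = 0 := by
          intro v
          have : tset A d (kap ρ κ) b W K ⟨J, v⟩ = ∅ := by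
            ext x
            simp only [mem_empty_iff_false, iff_false]
            exact fun hx => h hx.1
          rw [this, Metric.ediam_empty, ENNReal.zero_rpow_of_pos hs]
        simp [this]
    refine (ENNReal.tsum_le_tsum hinner).trans ?_
    rw [← ENNReal.summable.sum_add_tsum_nat_add' (f := fun J => if K ≤ J then u J else 0) (k := K)]
    have h0 : ∑ i ∈ Finset.range K, (if K ≤ i then u i else 0) = 0 := by
      refine Finset.sum_eq_zero fun i hi => ?_
      rw [if_neg (by simpa using hi)]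
    rw [h0, zero_add]
    refine ENNReal.tsum_le_tsum fun k => ?_
    rw [if_pos (by omega)]
  have hr0 : Tendsto (fun K : ℕ => ENNReal.ofReal (D * b ^ K)) atTop (𝓝 0) := by
    have h1 : Tendsto (fun K : ℕ => D * b ^ K) atTop (𝓝 (D * 0)) :=
      (tendsto_pow_atTop_nhds_zero_of_lt_one hb.le hb1).const_mul D
    rw [mul_zero] at h1
    have := ENNReal.tendsto_ofReal h1
    rwa [ENNReal.ofReal_zero] at this
  have key := Measure.hausdorffMeasure_le_liminf_tsum (X := Rd d) (β := ℕ) (ι := fun _ => CI A)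
    s (GS A d (kap ρ κ) b W) (l := atTop) (fun K => ENNReal.ofReal (D * b ^ K)) hr0
    (fun K p => tset A d (kap ρ κ) b W K p) (Eventually.of_forall hdiam)
    (Eventually.of_forall hsub)
  have hz : Measure.hausdorffMeasure s (GS A d (kap ρ κ) b W) = 0 := by
    refine le_antisymm (key.trans ?_) zero_le
    have hlim : Tendsto (fun K => ∑' p : CI A, Metric.ediam (tset A d (kap ρ κ) b W K p) ^ s)
        atTop (𝓝 0) :=
      tendsto_of_tendsto_of_tendsto_of_le_of_le tendsto_const_nhds htend (fun _ => zero_le) hsum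
    rw [hlim.liminf_eq]
  have hfin := dimH_le_of_hausdorffMeasure_ne_top (s := GS A d (kap ρ κ) b W) (d := s.toNNReal)
    (by rw [Real.coe_toNNReal s hs.le, hz]; simp)
  exact hfin

end

end H78R3.LF
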