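import Mathlib

/-!
The integral against a vector measure given by a bounded density.
-/

open MeasureTheory Set Filter Topology
open scoped ENNReal NNReal Real

namespace H78R3.LF

variable {X E F G : Type*} {mX : MeasurableSpace X}
  [NormedAddCommGroup E] [NormedSpace ℝ E]
  [NormedAddCommGroup F] [NormedSpace ℝ F]
  [NormedAddCommGroup G] [NormedSpace ℝ G]

lemma bil_bound (B : E →L[ℝ] F →L[ℝ] G) {g : X → F} (hb : ∀ x, ‖g x‖ ≤ 1) (x : X) (e : E) :
    ‖B e (g x)‖ ≤ ‖B‖ * ‖e‖ := by
  calc ‖B e (g x)‖ ≤ ‖B‖ * ‖e‖ * ‖g x‖ := B.le_opNorm₂ e (g x)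
    _ ≤ ‖B‖ * ‖e‖ * 1 := by gcongr; exact hb x
    _ = _ := mul_one _

lemma bil_integrable (τ : Measure X) {g : X → F} (hg : AEStronglyMeasurable g τ)
    (hb : ∀ x, ‖g x‖ ≤ 1) (B : E →L[ℝ] F →L[ℝ] G) {f : X → E} (hf : Integrable f τ) :
    Integrable (fun x => B (f x) (g x)) τ := by
  refine Integrable.mono' (hf.norm.const_mul ‖B‖) ?_ (Eventually.of_forall fun x => ?_)
  · exact B.aestronglyMeasurable_comp₂ hf.aestronglyMeasurable hg
  · exact bil_bound B hb x (f x)

lemma vm_integral' [CompleteSpace G] [CompleteSpace F] (μ : VectorMeasure X F)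
    [IsFiniteMeasure μ.variation] (g : X → F)
    (hg : Integrable g μ.variation) (hb : ∀ x, ‖g x‖ ≤ 1)
    (hμ : ∀ s, MeasurableSet s → μ s = ∫ x in s, g x ∂μ.variation)
    (B : E →L[ℝ] F →L[ℝ] G) {f : X → E} (hf : Integrable f μ.variation) :
    μ.integral f B = ∫ x, B (f x) (g x) ∂μ.variation := by
  refine Integrable.induction (fun f : X → E => μ.integral f B = ∫ x, B (f x) (g x) ∂μ.variation)
    ?_ ?_ ?_ ?_ hf
  · intro c s hs _
    rw [VectorMeasure.integral_indicator_const c hs, hμ s hs]
    have h1 : ∀ x, B (s.indicator (fun _ => c) x) (g x) = s.indicator (fun x => B c (g x)) x := by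
      intro x
      by_cases hx : x ∈ s
      · simp [hx]
      · simp [hx]
    simp_rw [h1]
    rw [MeasureTheory.integral_indicator hs, (B c).integral_comp_comm hg.integrableOn]
  · intro f1 f2 _ h1 h2 e1 e2
    rw [VectorMeasure.integral_add h1 h2, e1, e2, ← MeasureTheory.integral_add
      (bil_integrable _ hg.aestronglyMeasurable hb B h1)
      (bil_integrable _ hg.aestronglyMeasurable hb B h2)]
    simp
  · refine isClosed_eq VectorMeasure.continuous_integral ?_
    rw [continuous_iff_continuousAt]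
    intro f0
    refine tendsto_integral_of_L1 _ (bil_integrable _ hg.aestronglyMeasurable hb B
      (L1.integrable_coeFn f0)).aestronglyMeasurable (Eventually.of_forall fun f1 =>
      bil_integrable _ hg.aestronglyMeasurable hb B (L1.integrable_coeFn f1)) ?_
    have hle : ∀ f1 : X →₁[μ.variation] E,
        ∫⁻ x, ‖B (f1 x) (g x) - B (f0 x) (g x)‖ₑ ∂μ.variation
          ≤ ENNReal.ofReal ‖B‖ * edist f1 f0 := by
      intro f1
      rw [L1.edist_def, ← lintegral_const_mul' _ _ ENNReal.ofReal_ne_top]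
      refine lintegral_mono fun x => ?_
      rw [← sub_apply, ← map_sub, edist_eq_enorm_sub, ← ofReal_norm,
        ← ofReal_norm, ← ENNReal.ofReal_mul (norm_nonneg B)]
      exact ENNReal.ofReal_le_ofReal (bil_bound B hb x _)
    have hlim : Tendsto (fun f1 : X →₁[μ.variation] E => ENNReal.ofReal ‖B‖ * edist f1 f0)
        (𝓝 f0) (𝓝 0) := by
      have h1 : Tendsto (fun f1 : X →₁[μ.variation] E => edist f1 f0) (𝓝 f0) (𝓝 0) := by
        have := (continuous_id.edist (continuous_const (y := f0))).tendsto f0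
        simpa using this
      have := ENNReal.Tendsto.const_mul (a := ENNReal.ofReal ‖B‖) h1
        (Or.inr ENNReal.ofReal_ne_top)
      simpa using this
    exact tendsto_of_tendsto_of_tendsto_of_le_of_le tendsto_const_nhds hlim (fun _ => zero_le) hle
  · intro f1 f2 hae _ e1
    rw [← VectorMeasure.integral_congr_ae hae, e1]
    refine MeasureTheory.integral_congr_ae ?_
    filter_upwards [hae] with x hx
    rw [hx]

lemma vm_variation [CompleteSpace F] (σ : Measure X) {g : X → F} (hg : Integrable g σ)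
    (hb : ∀ x, ‖g x‖ = 1) : (σ.withDensityᵥ g).variation = σ := by
  rw [Measure.variation_withDensityᵥ hg]
  have : (fun x => ‖g x‖ₑ) = fun _ => (1 : ℝ≥0∞) := by
    funext x
    rw [← ofReal_norm, hb x, ENNReal.ofReal_one]
  rw [this]
  exact withDensity_one

lemma vm_integral [CompleteSpace G] [CompleteSpace F] (σ : Measure X) [IsFiniteMeasure σ]
    {g : X → F} (hg : Integrable g σ) (hb : ∀ x, ‖g x‖ = 1)
    (B : E →L[ℝ] F →L[ℝ] G) {f : X → E} (hf : Integrable f σ) :
    (σ.withDensityᵥ g).integral f B = ∫ x, B (f x) (g x) ∂σ := by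
  have hv := vm_variation σ hg hb
  have hfin : IsFiniteMeasure (σ.withDensityᵥ g).variation := by rw [hv]; infer_instance
  have h := vm_integral' (σ.withDensityᵥ g) g (by rw [hv]; exact hg) (fun x => (hb x).le)
    (fun s hs => by rw [hv, withDensityᵥ_apply hg hs]) B (f := f) (by rw [hv]; exact hf)
  rw [h, hv]

end H78R3.LF
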