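import Pool.Agent.H78R3.LF.Field
import Pool.Agent.H78R3.LF.VM

/-!
The vector measure, its Fourier transform and its small set.
-/

open MeasureTheory Set Filter Topology
open scoped ENNReal NNReal Real

namespace H78R3.LF

noncomputable section

/-- density -/
def gd (d : ℕ) (h : ℝ) (x : Rd d) : Cd d := ee (h * ∑ i, x i) • e0 d

/-- law of the random vector -/
def sig (A d : ℕ) (ρ κ : Par) (b : ℝ) : Measure (Rd d) := (PP A (kap ρ κ)).map (XV d b)

instance (A d : ℕ) (ρ κ : Par) (b : ℝ) : IsProbabilityMeasure (sig A d ρ κ b) :=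
  Measure.isProbabilityMeasure_map (measurable_XV d b).aemeasurable

lemma continuous_gd (d : ℕ) (h : ℝ) : Continuous (gd d h) := by
  unfold gd
  have h1 : Continuous fun x : Rd d => ee (h * ∑ i, x i) := continuous_ee.comp (by fun_prop)
  exact h1.smul continuous_const

lemma norm_gd {d : ℕ} (hd : 0 < d) (h : ℝ) (x : Rd d) : ‖gd d h x‖ = 1 := by
  unfold gd
  rw [norm_smul, norm_ee, norm_e0 hd, one_mul]

lemma integrable_gd {d : ℕ} (hd : 0 < d) (h : ℝ) (σ : Measure (Rd d)) [IsFiniteMeasure σ] :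
    Integrable (gd d h) σ :=
  Integrable.of_bound (C := 1) (continuous_gd d h).aestronglyMeasurable
    (Eventually.of_forall fun x => (norm_gd hd h x).le)

lemma sum_active {A d : ℕ} (hA : A ≤ d) (F : Fin d → ℝ) (G : Fin A → ℝ)
    (hG : ∀ i : Fin A, F (Fin.castLE hA i) = G i) (h0 : ∀ i : Fin d, ¬ ((i : ℕ) < A) → F i = 0) :
    ∑ i, F i = ∑ i, G i := by
  symm
  refine Finset.sum_of_injOn (Fin.castLE hA) ?_ ?_ ?_ ?_
  · exact fun x _ y _ h => Fin.castLE_injective hA h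
  · intro x _; simp
  · intro i _ hi
    apply h0
    intro hc
    apply hi
    exact ⟨⟨i, hc⟩, by simp, by ext; rfl⟩
  · intro i _; exact (hG i).symm

lemma ft_mu {A d : ℕ} (hd : 0 < d) (hA : A ≤ d) (ρ κ : Par) (b h : ℝ) (ξ : Rd d) :
    ((sig A d ρ κ b).withDensityᵥ (gd d h)).integral
      (fun x => Complex.exp (-(2 * π * Complex.I * (inner ℝ x ξ : ℝ))))
      (ContinuousLinearMap.lsmul ℝ ℂ)
    = (∫ ω, ee (∑ i : Fin A, (h - ξ (Fin.castLE hA i)) * XX b i ω) ∂(PP A (kap ρ κ))) • e0 d := by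
  have hf : ∀ x : Rd d, Complex.exp (-(2 * π * Complex.I * (inner ℝ x ξ : ℝ)))
      = ee (-(inner ℝ x ξ : ℝ)) := by
    intro x
    unfold ee
    congr 1
    push_cast
    ring
  simp_rw [hf]
  have hcont : Continuous fun x : Rd d => ee (-(inner ℝ x ξ : ℝ)) :=
    continuous_ee.comp (by fun_prop)
  have hint : Integrable (fun x : Rd d => ee (-(inner ℝ x ξ : ℝ))) (sig A d ρ κ b) :=
    Integrable.of_bound (C := 1) hcont.aestronglyMeasurable
      (Eventually.of_forall fun x => by rw [norm_ee])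
  rw [vm_integral (sig A d ρ κ b) (integrable_gd hd h _) (norm_gd hd h)
    (ContinuousLinearMap.lsmul ℝ ℂ) hint]
  have h1 : ∀ x : Rd d, (ContinuousLinearMap.lsmul ℝ ℂ : ℂ →L[ℝ] Cd d →L[ℝ] Cd d)
      (ee (-(inner ℝ x ξ : ℝ))) (gd d h x) = ee (-(inner ℝ x ξ : ℝ) + h * ∑ i, x i) • e0 d := by
    intro x
    rw [ContinuousLinearMap.lsmul_apply, gd, smul_smul, ← ee_add]
  simp_rw [h1]
  rw [integral_smul_const]
  congr 1
  unfold sig
  have hc2 : Continuous fun x : Rd d => ee (-(inner ℝ x ξ : ℝ) + h * ∑ i, x i) :=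
    continuous_ee.comp (by fun_prop)
  rw [integral_map (measurable_XV d b).aemeasurable hc2.aestronglyMeasurable]
  refine integral_congr_ae (Eventually.of_forall fun ω => ?_)
  simp only
  congr 1
  rw [PiLp.inner_apply, Finset.mul_sum, ← Finset.sum_neg_distrib, ← Finset.sum_add_distrib]
  refine sum_active hA _ _ ?_ ?_
  · intro i
    simp [XV]
    ring
  · intro i hi
    simp [XV, hi]

lemma ft_zero {A n : ℕ} (hn : 8 ≤ n) {d : ℕ} (hA : A ≤ d) {ρ κ : Par}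
    (hρ : (ρ : ℝ) = 1 / (4 * (n : ℝ) ^ 2)) (hκ : (κ : ℝ) = 1 / (16 * n)) {ξ : Rd d}
    (hξ : ξ ∈ UU A d n) :
    ∫ ω, ee (∑ i : Fin A, (1 / (n : ℝ) ^ 2 - ξ (Fin.castLE hA i)) * XX (1 / (n : ℝ) ^ 2) i ω)
      ∂(PP A (kap ρ κ)) = 0 := by
  by_contra hne
  have hn' : (8 : ℝ) ≤ n := by exact_mod_cast hn
  have hb : 0 < 1 / (n : ℝ) ^ 2 := by positivity
  have hb2 : 1 / (n : ℝ) ^ 2 ≤ 1 / 2 := by
    apply one_div_le_one_div_of_le (by norm_num); nlinarith
  refine notMem_UU hn (ξ := ξ) (A := A) ?_ hξ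
  intro i hi
  refine spec_shift hn hρ hκ ?_
  intro j l hjl
  apply hne
  refine char_zero ρ κ hb hb2 (fun i : Fin A => 1 / (n : ℝ) ^ 2 - ξ (Fin.castLE hA i)) ⟨i, hi⟩ j l
    ?_ ?_
  · exact hjl.1
  · exact hjl.2

/-- choice of the integer parameter -/
lemma exists_n (A : ℕ) {s : ℝ} (hs : (A : ℝ) / 2 < s) :
    ∃ n : ℕ, 8 ≤ n ∧ (24 * (n : ℝ)) ^ A * (1 / (n : ℝ) ^ 2) ^ s < 1 := by
  have h1 : Tendsto (fun n : ℕ => (24 : ℝ) ^ A * (n : ℝ) ^ (-(2 * s - A))) atTop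
      (𝓝 ((24 : ℝ) ^ A * 0)) :=
    ((tendsto_rpow_neg_atTop (by linarith)).comp tendsto_natCast_atTop_atTop).const_mul _
  rw [mul_zero] at h1
  have h2 := (h1.eventually (gt_mem_nhds (zero_lt_one))).and (eventually_ge_atTop 8)
  obtain ⟨n, h3, h8⟩ := h2.exists
  refine ⟨n, h8, ?_⟩
  have hn0 : (0 : ℝ) < n := by
    have : (8 : ℝ) ≤ n := by exact_mod_cast h8
    linarith
  refine lt_of_eq_of_lt ?_ h3
  rw [mul_pow, mul_assoc]
  congr 1
  rw [one_div, ← Real.rpow_natCast (n : ℝ) 2, ← Real.rpow_neg hn0.le, ← Real.rpow_mul hn0.le,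
    ← Real.rpow_natCast (n : ℝ) A, ← Real.rpow_add hn0]
  congr 1
  push_cast
  ring

/-- the measure -/
lemma exists_measure {A d : ℕ} (hA0 : 0 < A) (hA : A ≤ d) {s : ℝ} (hs : (A : ℝ) / 2 < s) :
    ∃ n : ℕ, 8 ≤ n ∧ ∃ μ : VectorMeasure (Rd d) (Cd d), IsFiniteMeasure μ.variation ∧
      (∀ ξ : Rd d, ∃ c : ℂ, μ.integral
        (fun x => Complex.exp (-(2 * π * Complex.I * (inner ℝ x ξ : ℝ))))
        (ContinuousLinearMap.lsmul ℝ ℂ) = c • e0 d ∧ (ξ ∈ UU A d n → c = 0)) ∧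
      ∃ F : Set (Rd d), MeasurableSet F ∧ μ F ≠ 0 ∧ dimH F ≤ ENNReal.ofReal s := by
  obtain ⟨n, hn, hq⟩ := exists_n A hs
  have hd : 0 < d := by omega
  have hn' : (8 : ℝ) ≤ n := by exact_mod_cast hn
  have hn0 : (0 : ℝ) < n := by linarith
  set b : ℝ := 1 / (n : ℝ) ^ 2 with hb
  have hb0 : 0 < b := by positivity
  have hb2 : b ≤ 1 / 2 := by
    rw [hb]; apply one_div_le_one_div_of_le (by norm_num); nlinarith
  set ρ : Par := ⟨1 / (4 * (n : ℝ) ^ 2), by positivity, by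
    apply one_div_le_one_div_of_le (by norm_num); nlinarith⟩ with hρ
  set κ : Par := ⟨1 / (16 * n), by positivity, by
    apply one_div_le_one_div_of_le (by norm_num); linarith⟩ with hκ
  have hρ' : (ρ : ℝ) = 1 / (4 * (n : ℝ) ^ 2) := rfl
  have hκ' : (κ : ℝ) = 1 / (16 * n) := rfl
  have hκ0 : 0 < (κ : ℝ) := κ.2.1
  have hs0 : 0 < s := lt_of_le_of_lt (by positivity) hs
  have hvar := vm_variation (sig A d ρ κ b) (integrable_gd hd b _) (norm_gd hd b)
  refine ⟨n, hn, (sig A d ρ κ b).withDensityᵥ (gd d b), ?_, ?_, ?_⟩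
  · rw [hvar]; infer_instance
  · intro ξ
    refine ⟨_, ft_mu hd hA ρ κ b b ξ, fun hξ => ?_⟩
    exact ft_zero hn hA hρ' hκ' hξ
  · have hpos : ((sig A d ρ κ b).withDensityᵥ (gd d b)).variation
        (GS A d (kap ρ κ) b (4 * A / κ)) ≠ 0 := by
      rw [hvar]
      have := GS_prob hA0 d ρ κ hb0 hb2
      intro hc
      unfold sig at hc
      rw [hc] at this
      simp at this
    rw [Ne, VectorMeasure.variation_apply_eq_zero (measurableSet_GS A d _ _ _)] at hpos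
    push Not at hpos
    obtain ⟨F, hFs, hFm, hF⟩ := hpos
    refine ⟨F, hFm, hF, (dimH_mono hFs).trans ?_⟩
    refine GS_dim A d ρ κ hb0 (by linarith) (by positivity) hs0 ?_
    have e : 3 / (2 * (κ : ℝ)) = 24 * n := by
      rw [hκ']; field_simp; norm_num
    rw [e]
    exact hq

end

end H78R3.LF
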