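import Pool.Agent.H78R3.LF.Spec

/-!
The vector function spanning the line field, and linear algebra of coordinate subspaces.
-/

open MeasureTheory Set Filter Topology
open scoped ENNReal NNReal Real ContDiff

namespace H78R3.LF

noncomputable section

/-- complex Euclidean space -/
abbrev Cd (d : ℕ) := EuclideanSpace ℂ (Fin d)

/-- the first basis vector (zero vector if `d = 0`) -/
def e0 (d : ℕ) : Cd d := WithLp.toLp 2 (fun i : Fin d => if (i : ℕ) = 0 then 1 else 0)

/-- odd injective real-linear function with zeroth component zero -/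
def gg {d : ℕ} (hd : 0 < d) (ξ : Rd d) (i : Fin d) : ℂ :=
  if (i : ℕ) = 0 then 0 else if (i : ℕ) = 1 then (ξ i : ℂ) + (ξ ⟨0, hd⟩ : ℂ) * Complex.I
    else (ξ i : ℂ)

lemma gg_neg {d : ℕ} (hd : 0 < d) (ξ : Rd d) (i : Fin d) : gg hd (-ξ) i = - gg hd ξ i := by
  unfold gg
  split_ifs
  · simp
  · simp; ring
  · simp

lemma gg_ne {d : ℕ} (hd : 0 < d) (hd2 : 2 ≤ d) {ξ : Rd d} (h : ∀ i, gg hd ξ i = 0) : ξ = 0 := by
  have h1 := h ⟨1, by omega⟩
  simp only [gg] at h1
  norm_num at h1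
  have hre := congrArg Complex.re h1
  have him := congrArg Complex.im h1
  simp at hre him
  ext i
  by_cases hi0 : (i : ℕ) = 0
  · have : i = ⟨0, hd⟩ := Fin.ext hi0
    rw [this]; simpa using him
  by_cases hi1 : (i : ℕ) = 1
  · have : i = ⟨1, by omega⟩ := Fin.ext hi1
    rw [this]; simpa using hre
  · have := h i
    simp only [gg, hi0, hi1, if_false] at this
    simpa using this

/-- the spanning vector -/
def wv {d : ℕ} (hd : 0 < d) (h : Rd d → ℝ) (ξ : Rd d) : Cd d :=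
  WithLp.toLp 2 (fun i => (if (i : ℕ) = 0 then 1 else 0) + (h ξ : ℂ) * gg hd ξ i)

lemma wv_contDiff {d : ℕ} (hd : 0 < d) {h : Rd d → ℝ} (hh : ContDiff ℝ ∞ h) :
    ContDiff ℝ ∞ (wv hd h) := by
  unfold wv
  rw [contDiff_piLp]
  intro i
  simp only
  have h1 : ContDiff ℝ ∞ fun ξ : Rd d => (h ξ : ℂ) := Complex.ofRealCLM.contDiff.comp hh
  have h2 : ∀ j : Fin d, ContDiff ℝ ∞ fun ξ : Rd d => (ξ j : ℂ) := fun j =>
    Complex.ofRealCLM.contDiff.comp (contDiff_piLp_apply 2)
  refine contDiff_const.add (h1.mul ?_)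
  unfold gg
  split_ifs
  · exact contDiff_const
  · exact (h2 i).add ((h2 _).mul contDiff_const)
  · exact h2 i

lemma wv_zero {d : ℕ} (hd : 0 < d) {h : Rd d → ℝ} {ξ : Rd d} (hξ : h ξ = 0) :
    wv hd h ξ = e0 d := by
  unfold wv e0
  ext i
  simp [hξ]

lemma wv_fst {d : ℕ} (hd : 0 < d) (h : Rd d → ℝ) (ξ : Rd d) : wv hd h ξ ⟨0, hd⟩ = 1 := by
  simp [wv, gg]

lemma wv_ne {d : ℕ} (hd : 0 < d) (h : Rd d → ℝ) (ξ : Rd d) : wv hd h ξ ≠ 0 := by
  intro hc
  have := wv_fst hd h ξ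
  rw [hc] at this
  simp at this

lemma e0_ne {d : ℕ} (hd : 0 < d) : e0 d ≠ 0 := by
  intro hc
  have := congrArg (fun z : Cd d => z ⟨0, hd⟩) hc
  simp [e0] at this

lemma norm_e0 {d : ℕ} (hd : 0 < d) : ‖e0 d‖ = 1 := by
  have : e0 d = EuclideanSpace.single (⟨0, hd⟩ : Fin d) (1 : ℂ) := by
    ext i
    simp only [e0, PiLp.single_apply]
    by_cases hi : (i : ℕ) = 0
    · have : i = ⟨0, hd⟩ := Fin.ext hi
      simp [this]
    · have : i ≠ ⟨0, hd⟩ := fun hc => hi (by rw [hc])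
      simp [hi, this]
  rw [this]
  simp

lemma wv_anti {d : ℕ} (hd : 0 < d) (hd2 : 2 ≤ d) {h : Rd d → ℝ} (hnn : ∀ x, 0 ≤ h x) {ξ : Rd d}
    (hξ0 : ξ ≠ 0) (hξ : h ξ ≠ 0) {z : Cd d} (h1 : z ∈ Submodule.span ℂ {wv hd h ξ})
    (h2 : z ∈ Submodule.span ℂ {wv hd h (-ξ)}) : z = 0 := by
  obtain ⟨a, ha⟩ := Submodule.mem_span_singleton.1 h1
  obtain ⟨c, hc⟩ := Submodule.mem_span_singleton.1 h2
  have hac : a = c := by
    have e1 := congrArg (fun z : Cd d => z ⟨0, hd⟩) ha
    have e2 := congrArg (fun z : Cd d => z ⟨0, hd⟩) hc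
    simp only [PiLp.smul_apply, wv_fst, smul_eq_mul, mul_one] at e1 e2
    rw [e1, e2]
  obtain ⟨i, hi⟩ : ∃ i, gg hd ξ i ≠ 0 := by
    by_contra hcon
    push Not at hcon
    exact hξ0 (gg_ne hd hd2 hcon)
  have hi0 : (i : ℕ) ≠ 0 := by
    intro h0
    apply hi
    simp [gg, h0]
  have e1 := congrArg (fun z : Cd d => z i) ha
  have e2 := congrArg (fun z : Cd d => z i) hc
  simp only [PiLp.smul_apply, smul_eq_mul, wv, gg_neg, hi0, if_false, zero_add] at e1 e2
  have e3 : a * (((h ξ + h (-ξ) : ℝ) : ℂ) * gg hd ξ i) = 0 := by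
    push_cast
    rw [← hac] at e2
    linear_combination e1 - e2
  have hpos : 0 < h ξ + h (-ξ) := by
    have := (hnn ξ).lt_of_ne (Ne.symm hξ)
    have := hnn (-ξ)
    linarith
  have hne : (((h ξ + h (-ξ) : ℝ) : ℂ)) ≠ 0 := by exact_mod_cast hpos.ne'
  have ha0 : a = 0 := by
    rcases mul_eq_zero.1 e3 with h | h
    · exact h
    · rcases mul_eq_zero.1 h with h | h
      · exact absurd h hne
      · exact absurd h hi
  rw [← ha, ha0, zero_smul]

/-- inactive coordinates -/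
abbrev SI (A d : ℕ) : Type := {i : Fin d // ¬ ((i : ℕ) < A)}

lemma card_inactive {A d : ℕ} (hA : A ≤ d) : Fintype.card (SI A d) = d - A := by
  have h1 : Fintype.card {x : Fin d // (x : ℕ) < A} = Fintype.card (Fin A) := by
    refine Fintype.card_congr ⟨fun x => ⟨x.1, x.2⟩, fun y => ⟨⟨y, by omega⟩, y.2⟩, ?_, ?_⟩
    · intro x; rfl
    · intro y; rfl
  have h2 := Fintype.card_subtype_compl (fun i : Fin d => (i : ℕ) < A)
  rw [h1, Fintype.card_fin, Fintype.card_fin] at h2
  exact h2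

/-- every subspace of dimension `k+1` meets the cone, if `A + k = d + 1` -/
lemma exists_mem_UU {A d k n : ℕ} (hA : A ≤ d) (hk : A + k = d + 1) (hn : 8 ≤ n)
    (L : Submodule ℝ (Rd d)) (hL : Module.finrank ℝ L = k + 1) : ∃ ξ ∈ L, ξ ∈ UU A d n := by
  classical
  have hn' : (8 : ℝ) ≤ n := by exact_mod_cast hn
  -- inactive coordinates
  have hcard := card_inactive hA
  let f1 : L →ₗ[ℝ] (SI A d → ℝ) :=
    { toFun := fun x i => (x : Rd d) i.1
      map_add' := fun x y => by ext i; simp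
      map_smul' := fun c x => by ext i; simp }
  have h1 : LinearMap.ker f1 ≠ ⊥ := by
    apply LinearMap.ker_ne_bot_of_finrank_lt
    rw [Module.finrank_fintype_fun_eq_card, hcard, hL]
    omega
  obtain ⟨u, hu, hu0⟩ := (Submodule.ne_bot_iff _).1 h1
  have hu1 : ∀ i : Fin d, ¬ ((i : ℕ) < A) → (u : Rd d) i = 0 := fun i hi =>
    congrFun (LinearMap.mem_ker.1 hu) ⟨i, hi⟩
  obtain ⟨i₀, hi₀⟩ : ∃ i, (u : Rd d) i ≠ 0 := by
    by_contra hcon
    push Not at hcon
    apply hu0
    ext i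
    simpa using hcon i
  have hi₀A : (i₀ : ℕ) < A := by
    by_contra hc
    exact hi₀ (hu1 i₀ hc)
  let f2 : L →ₗ[ℝ] (Option (SI A d) → ℝ) :=
    { toFun := fun x o => Option.elim o ((x : Rd d) i₀) (fun i => (x : Rd d) i.1)
      map_add' := fun x y => by ext o; cases o <;> simp
      map_smul' := fun c x => by ext o; cases o <;> simp }
  have h2 : LinearMap.ker f2 ≠ ⊥ := by
    apply LinearMap.ker_ne_bot_of_finrank_lt
    rw [Module.finrank_fintype_fun_eq_card, Fintype.card_option, hcard, hL]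
    omega
  obtain ⟨v, hv, hv0⟩ := (Submodule.ne_bot_iff _).1 h2
  have hv1 : ∀ i : Fin d, ¬ ((i : ℕ) < A) → (v : Rd d) i = 0 := fun i hi =>
    congrFun (LinearMap.mem_ker.1 hv) (some ⟨i, hi⟩)
  have hvi : (v : Rd d) i₀ = 0 := congrFun (LinearMap.mem_ker.1 hv) none
  obtain ⟨j₀, hj₀⟩ : ∃ i, (v : Rd d) i ≠ 0 := by
    by_contra hcon
    push Not at hcon
    apply hv0
    ext i
    simpa using hcon i
  have hj₀A : (j₀ : ℕ) < A := by
    by_contra hc
    exact hj₀ (hv1 j₀ hc)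
  set α : ℝ := ((u : Rd d) i₀)⁻¹ with hα
  set β : ℝ := ((n : ℝ) - α * (u : Rd d) j₀) / (v : Rd d) j₀ with hβ
  refine ⟨α • (u : Rd d) + β • (v : Rd d), L.add_mem (L.smul_mem _ u.2) (L.smul_mem _ v.2),
    i₀, j₀, hi₀A, hj₀A, 0, ?_⟩
  have e1 : (α • (u : Rd d) + β • (v : Rd d)) i₀ = 1 := by
    simp only [PiLp.add_apply, PiLp.smul_apply, smul_eq_mul, hvi, mul_zero, add_zero, hα]
    exact inv_mul_cancel₀ hi₀
  have e2 : (α • (u : Rd d) + β • (v : Rd d)) j₀ = n := by
    simp only [PiLp.add_apply, PiLp.smul_apply, smul_eq_mul, hβ]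
    field_simp
    ring
  rw [e1, e2, zpow_zero, abs_one, abs_of_pos (by linarith : (0 : ℝ) < n)]
  constructor <;> linarith

/-- a subspace of given small dimension avoiding the cone -/
lemma exists_avoid {A d k n : ℕ} (hA : A ≤ d) (hA1 : 0 < A) (hk : A + k = d + 1) (hn : 8 ≤ n)
    {j : ℕ} (hj : j < k) : ∃ L : Submodule ℝ (Rd d), Module.finrank ℝ L = j + 1 ∧
      ∀ ξ ∈ L, ξ ∉ UU A d n := by
  classical
  have hn' : (8 : ℝ) ≤ n := by exact_mod_cast hn
  have hcard := card_inactive hA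
  let φ : (Option (SI A d) → ℝ) →ₗ[ℝ] Rd d :=
    { toFun := fun c => WithLp.toLp 2 (fun i : Fin d =>
        if h : (i : ℕ) < A then c none else c (some ⟨i, h⟩))
      map_add' := fun x y => by
        ext i
        by_cases h : (i : ℕ) < A <;> simp [h]
      map_smul' := fun c x => by
        ext i
        by_cases h : (i : ℕ) < A <;> simp [h] }
  have hinj : Function.Injective φ := by
    rw [injective_iff_map_eq_zero]
    intro c hc
    ext o
    cases o with
    | none =>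
      have := congrArg (fun z : Rd d => z ⟨0, by omega⟩) hc
      simpa [φ, hA1] using this
    | some i =>
      have := congrArg (fun z : Rd d => z i.1) hc
      simpa [φ, i.2] using this
  have hfin : Module.finrank ℝ (Option (SI A d) → ℝ) = k := by
    rw [Module.finrank_fintype_fun_eq_card, Fintype.card_option, hcard]
    omega
  obtain ⟨f, hf⟩ := exists_linearIndependent_of_le_finrank (R := ℝ) (M := Option (SI A d) → ℝ)
    (n := j + 1) (by omega)
  have hf' : LinearIndependent ℝ (φ ∘ f) := hf.map' φ (LinearMap.ker_eq_bot.2 hinj)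
  refine ⟨Submodule.span ℝ (range (φ ∘ f)), ?_, ?_⟩
  · rw [finrank_span_eq_card hf', Fintype.card_fin]
  · intro ξ hξ hU
    have hle : Submodule.span ℝ (range (φ ∘ f)) ≤ LinearMap.range φ := by
      rw [Submodule.span_le]
      rintro _ ⟨x, rfl⟩
      exact ⟨f x, rfl⟩
    obtain ⟨c, rfl⟩ := hle hξ
    obtain ⟨p, q, hp, hq, l, h1, h2⟩ := hU
    have ep : (φ c) p = c none := by simp [φ, hp]
    have eq : (φ c) q = c none := by simp [φ, hq]
    rw [ep, eq] at h1 h2
    have hc : 0 < |c none| := by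
      by_contra hcon
      have : |c none| = 0 := le_antisymm (not_lt.1 hcon) (abs_nonneg _)
      rw [this, zero_mul] at h2
      exact lt_irrefl _ h2
    set M : ℝ := (n : ℝ) ^ 2 with hM
    have hM1 : 1 ≤ M := by rw [hM]; nlinarith
    have hM0 : 0 < M := by positivity
    have h1' : n / 2 * M ^ l < 1 := by
      by_contra hcon
      push Not at hcon
      have := mul_le_mul_of_nonneg_left hcon hc.le
      linarith
    have h2' : 1 < 2 * n * M ^ l := by
      by_contra hcon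
      push Not at hcon
      have := mul_le_mul_of_nonneg_left hcon hc.le
      linarith
    rcases le_or_gt 0 l with hl | hl
    · have : 1 ≤ M ^ l := one_le_zpow₀ hM1 hl
      nlinarith
    · have hl' : l ≤ -1 := by omega
      have h3 : M ^ l ≤ M ^ (-1 : ℤ) := zpow_le_zpow_right₀ hM1 hl'
      have h4 : M ^ (-1 : ℤ) = 1 / (n : ℝ) ^ 2 := by rw [zpow_neg_one, hM, one_div]
      rw [h4] at h3
      have h5 : 2 * (n : ℝ) * M ^ l ≤ 2 / n := by
        calc 2 * (n : ℝ) * M ^ l ≤ 2 * n * (1 / (n : ℝ) ^ 2) := by gcongr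
          _ = 2 / n := by field_simp
      have h6 : (2 : ℝ) / n ≤ 1 := by rw [div_le_one (by linarith)]; linarith
      linarith

end

end H78R3.LF
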