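import Mathlib

/-!
Digit laws with characteristic function vanishing on gaps: the law on `ℤ` with masses
`(3κ/2) sinc(π κ n)^4`.
-/

open MeasureTheory Set Filter Topology
open scoped ENNReal NNReal Real

namespace H78R3.LF

noncomputable section

/-- the character `e(x) = exp (2 π i x)` -/
def ee (x : ℝ) : ℂ := Complex.exp (2 * π * Complex.I * x)

lemma ee_add (x y : ℝ) : ee (x + y) = ee x * ee y := by
  unfold ee
  rw [← Complex.exp_add]
  congr 1
  push_cast
  ring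

lemma ee_zero : ee 0 = 1 := by simp [ee]

lemma ee_int (n : ℤ) : ee n = 1 := by
  unfold ee
  rw [Complex.exp_eq_one_iff]
  exact ⟨n, by push_cast; ring⟩

lemma norm_ee (x : ℝ) : ‖ee x‖ = 1 := by
  unfold ee
  rw [show (2 * π * Complex.I * x : ℂ) = ((2 * π * x : ℝ) : ℂ) * Complex.I by push_cast; ring]
  exact Complex.norm_exp_ofReal_mul_I _

lemma continuous_ee : Continuous ee := by
  unfold ee
  fun_prop

lemma ee_sum {ι : Type*} (s : Finset ι) (f : ι → ℝ) : ee (∑ i ∈ s, f i) = ∏ i ∈ s, ee (f i) := by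
  classical
  induction s using Finset.induction_on with
  | empty => simp [ee_zero]
  | insert a s ha ih => rw [Finset.sum_insert ha, Finset.prod_insert ha, ee_add, ih]

lemma bern4 (x : ℝ) : bernoulliFun 4 x = x ^ 4 - 2 * x ^ 3 + x ^ 2 - 1 / 30 := by
  have h : (bernoulli 3 : ℚ) = 0 := by
    rw [bernoulli_eq_bernoulli'_of_ne_one (by norm_num)]
    exact bernoulli'_three
  have h4 : (bernoulli 4 : ℚ) = -1 / 30 := by
    rw [bernoulli_eq_bernoulli'_of_ne_one (by norm_num)]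
    exact bernoulli'_four
  simp [bernoulliFun, Polynomial.bernoulli_def, Finset.sum_range_succ, h, h4, Nat.choose]
  ring

lemma four_sum {x : ℝ} (hx : x ∈ Icc (0:ℝ) 1) :
    HasSum (fun n : ℤ => 1 / (n : ℂ) ^ 4 * ee ((n : ℝ) * x))
      (((-(2 * π ^ 4 / 3) * bernoulliFun 4 x : ℝ)) : ℂ) := by
  have h := hasSum_one_div_pow_mul_fourier_mul_bernoulliFun (k := 4) (by norm_num) hx
  convert h using 1
  · funext n
    rw [fourier_coe_apply]
    unfold ee
    congr 2
    push_cast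
    ring
  · have : (Complex.I) ^ 4 = 1 := Complex.I_pow_four
    simp only [Nat.factorial]
    push_cast
    rw [mul_pow, mul_pow, this]
    ring

lemma two_sum {x : ℝ} (hx : x ∈ Icc (0:ℝ) 1) :
    HasSum (fun n : ℤ => 1 / (n : ℂ) ^ 2 * ee ((n : ℝ) * x))
      (((2 * π ^ 2 * bernoulliFun 2 x : ℝ)) : ℂ) := by
  have h := hasSum_one_div_pow_mul_fourier_mul_bernoulliFun (k := 2) (by norm_num) hx
  convert h using 1
  · funext n
    rw [fourier_coe_apply]
    unfold ee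
    congr 2
    push_cast
    ring
  · simp only [Nat.factorial]
    push_cast
    rw [mul_pow, mul_pow, Complex.I_sq]
    ring

lemma sin_four (y : ℝ) : (((Real.sin (π * y)) ^ 4 : ℝ) : ℂ)
    = 1 / 16 * (ee (2 * y) - 4 * ee y + 6 - 4 * ee (-y) + ee (-(2 * y))) := by
  have h1 : (Complex.sin (π * y)) = (Complex.exp (-(π * y) * Complex.I)
      - Complex.exp (π * y * Complex.I)) * Complex.I / 2 := by
    unfold Complex.sin; ring_nf
  set a := Complex.exp (π * y * Complex.I) with ha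
  set b := Complex.exp (-(π * y) * Complex.I) with hb
  have hab : a * b = 1 := by
    rw [ha, hb, ← Complex.exp_add]; ring_nf; simp
  have e1 : ee (2 * y) = a ^ 4 := by
    unfold ee; rw [ha, ← Complex.exp_nat_mul]; congr 1; push_cast; ring
  have e2 : ee y = a ^ 2 := by
    unfold ee; rw [ha, ← Complex.exp_nat_mul]; congr 1; push_cast; ring
  have e3 : ee (-y) = b ^ 2 := by
    unfold ee; rw [hb, ← Complex.exp_nat_mul]; congr 1; push_cast; ring
  have e4 : ee (-(2 * y)) = b ^ 4 := by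
    unfold ee; rw [hb, ← Complex.exp_nat_mul]; congr 1; push_cast; ring
  rw [e1, e2, e3, e4]
  push_cast
  rw [h1]
  have hI : Complex.I ^ 4 = 1 := Complex.I_pow_four
  have : ((b - a) * Complex.I / 2) ^ 4 = (b - a) ^ 4 / 16 := by
    rw [div_pow, mul_pow, hI]; norm_num
  rw [this]
  have h6 : (6 : ℂ) = 6 * (a * b) ^ 2 := by rw [hab]; ring
  have h4 : (4 : ℂ) * a ^ 2 = 4 * a ^ 3 * b := by
    calc (4 : ℂ) * a ^ 2 = 4 * a ^ 2 * 1 := by ring
      _ = 4 * a ^ 2 * (a * b) := by rw [hab]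
      _ = _ := by ring
  have h4' : (4 : ℂ) * b ^ 2 = 4 * a * b ^ 3 := by
    calc (4 : ℂ) * b ^ 2 = 4 * b ^ 2 * 1 := by ring
      _ = 4 * b ^ 2 * (a * b) := by rw [hab]
      _ = _ := by ring
  rw [h4, h4']
  conv_rhs => rw [h6]
  ring

lemma sin_two (y : ℝ) : (((Real.sin (π * y)) ^ 2 : ℝ) : ℂ)
    = 1 / 4 * (2 - ee y - ee (-y)) := by
  have h1 : (Complex.sin (π * y)) = (Complex.exp (-(π * y) * Complex.I)
      - Complex.exp (π * y * Complex.I)) * Complex.I / 2 := by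
    unfold Complex.sin; ring_nf
  set a := Complex.exp (π * y * Complex.I) with ha
  set b := Complex.exp (-(π * y) * Complex.I) with hb
  have hab : a * b = 1 := by
    rw [ha, hb, ← Complex.exp_add]; ring_nf; simp
  have e2 : ee y = a ^ 2 := by
    unfold ee; rw [ha, ← Complex.exp_nat_mul]; congr 1; push_cast; ring
  have e3 : ee (-y) = b ^ 2 := by
    unfold ee; rw [hb, ← Complex.exp_nat_mul]; congr 1; push_cast; ring
  rw [e2, e3]
  push_cast
  rw [h1]
  have hI : Complex.I ^ 2 = -1 := Complex.I_sq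
  have : ((b - a) * Complex.I / 2) ^ 2 = -(b - a) ^ 2 / 4 := by
    rw [div_pow, mul_pow, hI]; norm_num
  rw [this]
  have h6 : (2 : ℂ) = 2 * (a * b) := by rw [hab]; ring
  conv_rhs => rw [h6]
  ring

/-- `sinc (π κ n)` -/
def sc (κ : ℝ) (n : ℤ) : ℝ := Real.sinc (π * (κ * n))

lemma sc_zero (κ : ℝ) : sc κ 0 = 1 := by simp [sc]

lemma sc_ne {κ : ℝ} (hκ : κ ≠ 0) {n : ℤ} (hn : n ≠ 0) :
    sc κ n = Real.sin (π * (κ * n)) / (π * (κ * n)) := by
  unfold sc
  rw [Real.sinc_of_ne_zero]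
  have : (n : ℝ) ≠ 0 := by exact_mod_cast hn
  have := Real.pi_ne_zero
  positivity

lemma hs_congr {f g : ℤ → ℂ} {a b : ℂ} (h : HasSum g b) (hf : ∀ n, f n = g n) (hab : a = b) :
    HasSum f a := by
  rw [hab, show f = g from funext hf]
  exact h

/-- basic four-term sum -/
lemma four_aux {κ : ℝ} (hκ : 0 < κ) {t a b c d : ℝ} (ht : t ∈ Icc (0:ℝ) 1)
    (ha : a ∈ Icc (0:ℝ) 1) (hb : b ∈ Icc (0:ℝ) 1) (hc : c ∈ Icc (0:ℝ) 1)
    (hd : d ∈ Icc (0:ℝ) 1)
    (ha' : ∀ n : ℤ, ee (n * a) = ee (n * (t + 2 * κ)))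
    (hb' : ∀ n : ℤ, ee (n * b) = ee (n * (t + κ)))
    (hc' : ∀ n : ℤ, ee (n * c) = ee (n * (t - κ)))
    (hd' : ∀ n : ℤ, ee (n * d) = ee (n * (t - 2 * κ))) :
    HasSum (fun n : ℤ => (((sc κ n) ^ 4 : ℝ) : ℂ) * ee (n * t))
      (((1 - 1 / (24 * κ ^ 4) * (bernoulliFun 4 a - 4 * bernoulliFun 4 b
        + 6 * bernoulliFun 4 t - 4 * bernoulliFun 4 c + bernoulliFun 4 d) : ℝ)) : ℂ) := by
  have hpi : (π : ℂ) ≠ 0 := by exact_mod_cast Real.pi_ne_zero
  have hk : (κ : ℂ) ≠ 0 := by exact_mod_cast hκ.ne'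
  have hA := (four_sum ha).mul_left (1 / (16 * (π * κ) ^ 4) : ℂ)
  have hB := (four_sum hb).mul_left (-4 / (16 * (π * κ) ^ 4) : ℂ)
  have hT := (four_sum ht).mul_left (6 / (16 * (π * κ) ^ 4) : ℂ)
  have hC := (four_sum hc).mul_left (-4 / (16 * (π * κ) ^ 4) : ℂ)
  have hD := (four_sum hd).mul_left (1 / (16 * (π * κ) ^ 4) : ℂ)
  have h0 : HasSum (fun n : ℤ => if n = 0 then (1 : ℂ) else 0) 1 := hasSum_ite_eq 0 1
  have hall := ((((hA.add hB).add hT).add hC).add hD).add h0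
  refine hs_congr hall (fun n => ?_) ?_
  · by_cases hn : n = 0
    · subst hn
      simp [sc_zero, ee_zero]
    · rw [if_neg hn, sc_ne hκ.ne' hn]
      have hnC : (n : ℂ) ≠ 0 := by exact_mod_cast hn
      have h4 := sin_four (κ * n)
      push_cast at h4 ⊢
      rw [div_pow, h4, ha', hb', hc', hd']
      have e1 : ee (n * (t + 2 * κ)) = ee (n * t) * ee (2 * (κ * n)) := by
        rw [← ee_add]; congr 1; ring
      have e2 : ee (n * (t + κ)) = ee (n * t) * ee (κ * n) := by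
        rw [← ee_add]; congr 1; ring
      have e3 : ee (n * (t - κ)) = ee (n * t) * ee (-(κ * n)) := by
        rw [← ee_add]; congr 1; ring
      have e4 : ee (n * (t - 2 * κ)) = ee (n * t) * ee (-(2 * (κ * n))) := by
        rw [← ee_add]; congr 1; ring
      rw [e1, e2, e3, e4]
      field_simp
      ring
  · push_cast
    field_simp
    ring

/-- the gap: Fourier series of the fourth power of sinc vanishes on `[2κ, 1-2κ]` -/
lemma sc_four_gap {κ : ℝ} (hκ : 0 < κ) {t : ℝ} (h1 : 2 * κ ≤ t) (h2 : t ≤ 1 - 2 * κ) :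
    HasSum (fun n : ℤ => (((sc κ n) ^ 4 : ℝ) : ℂ) * ee (n * t)) 0 := by
  have h := four_aux hκ (t := t) (a := t + 2 * κ) (b := t + κ) (c := t - κ) (d := t - 2 * κ)
    ⟨by linarith, by linarith⟩ ⟨by linarith, by linarith⟩ ⟨by linarith, by linarith⟩
    ⟨by linarith, by linarith⟩ ⟨by linarith, by linarith⟩ (fun _ => rfl) (fun _ => rfl)
    (fun _ => rfl) (fun _ => rfl)
  convert h using 1
  rw [bern4, bern4, bern4, bern4, bern4]
  norm_cast
  field_simp
  ring

/-- total mass -/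
lemma sc_four_tot {κ : ℝ} (hκ : 0 < κ) (h1 : κ ≤ 1 / 4) :
    HasSum (fun n : ℤ => (sc κ n) ^ 4) (2 / (3 * κ)) := by
  have hper : ∀ (n : ℤ) (x : ℝ), ee (n * (1 - x)) = ee (n * (0 - x)) := by
    intro n x
    rw [show (n : ℝ) * (1 - x) = n + n * (0 - x) by ring, ee_add, ee_int, one_mul]
  have h := four_aux hκ (t := 0) (a := 0 + 2 * κ) (b := 0 + κ) (c := 1 - κ) (d := 1 - 2 * κ)
    ⟨by linarith, by linarith⟩ ⟨by linarith, by linarith⟩ ⟨by linarith, by linarith⟩
    ⟨by linarith, by linarith⟩ ⟨by linarith, by linarith⟩ (fun _ => rfl) (fun _ => rfl)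
    (fun n => hper n κ) (fun n => hper n (2 * κ))
  rw [← Complex.hasSum_ofReal]
  convert h using 1
  · funext n
    simp [ee_zero]
  · norm_cast
    rw [bern4, bern4, bern4, bern4, bern4]
    field_simp
    ring

lemma sc_two_tot {κ : ℝ} (hκ : 0 < κ) (h1 : κ ≤ 1 / 4) :
    HasSum (fun n : ℤ => (sc κ n) ^ 2) (1 / κ) := by
  have hpi : (π : ℂ) ≠ 0 := by exact_mod_cast Real.pi_ne_zero
  have hk : (κ : ℂ) ≠ 0 := by exact_mod_cast hκ.ne'
  have hT := (two_sum (x := 0) ⟨le_refl _, by norm_num⟩).mul_left (2 / (4 * (π * κ) ^ 2) : ℂ)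
  have hA := (two_sum (x := κ) ⟨by linarith, by linarith⟩).mul_left (-1 / (4 * (π * κ) ^ 2) : ℂ)
  have hB := (two_sum (x := 1 - κ) ⟨by linarith, by linarith⟩).mul_left
    (-1 / (4 * (π * κ) ^ 2) : ℂ)
  have h0 : HasSum (fun n : ℤ => if n = 0 then (1 : ℂ) else 0) 1 := hasSum_ite_eq 0 1
  have hall := ((hT.add hA).add hB).add h0
  rw [← Complex.hasSum_ofReal]
  refine hs_congr hall (fun n => ?_) ?_
  · by_cases hn : n = 0
    · subst hn
      simp [sc_zero]
    · rw [if_neg hn, sc_ne hκ.ne' hn]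
      have hnC : (n : ℂ) ≠ 0 := by exact_mod_cast hn
      have h4 := sin_two (κ * n)
      push_cast at h4 ⊢
      rw [div_pow, h4]
      have e1 : ee ((n : ℝ) * κ) = ee (κ * n) := by congr 1; ring
      have e2 : ee ((n : ℝ) * (1 - κ)) = ee (-(κ * n)) := by
        rw [show (n : ℝ) * (1 - κ) = n + (-(κ * n)) by ring, ee_add, ee_int, one_mul]
      rw [e1, e2, mul_zero, ee_zero]
      field_simp
      ring
  · rw [bernoulliFun_two, bernoulliFun_two, bernoulliFun_two]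
    push_cast
    field_simp
    ring

end

end H78R3.LF
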