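import Pool.Agent.H78R3.LF.Kernel

/-!
The digit laws as probability measures on `ℤ`, and their three basic properties.
-/

open MeasureTheory Set Filter Topology
open scoped ENNReal NNReal Real

namespace H78R3.LF

noncomputable section

/-- admissible parameters -/
abbrev Par := {κ : ℝ // 0 < κ ∧ κ ≤ 1 / 4}

/-- masses -/
def cm (κ : ℝ) (n : ℤ) : ℝ := 3 * κ / 2 * (sc κ n) ^ 4

lemma cm_nonneg {κ : ℝ} (h : 0 < κ) (n : ℤ) : 0 ≤ cm κ n := by
  unfold cm; positivity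

lemma hs_congrR {f g : ℤ → ℝ} {a b : ℝ} (h : HasSum g b) (hf : ∀ n, f n = g n) (hab : a = b) :
    HasSum f a := by
  rw [hab, show f = g from funext hf]
  exact h

lemma cm_sum (κ : Par) : HasSum (cm κ) 1 := by
  have h := (sc_four_tot κ.2.1 κ.2.2).mul_left (3 * (κ : ℝ) / 2)
  have h0 : (κ : ℝ) ≠ 0 := κ.2.1.ne'
  refine hs_congrR h (fun n => rfl) ?_
  field_simp

/-- the digit law as a `PMF` -/
def dl (κ : Par) : PMF ℤ := ⟨fun n => ENNReal.ofReal (cm κ n), by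
  rw [ENNReal.summable.hasSum_iff,
    ← ENNReal.ofReal_tsum_of_nonneg (fun n => cm_nonneg κ.2.1 n) (cm_sum κ).summable,
    (cm_sum κ).tsum_eq, ENNReal.ofReal_one]⟩

/-- the digit law -/
def dm (κ : Par) : Measure ℤ := (dl κ).toMeasure

instance (κ : Par) : IsProbabilityMeasure (dm κ) := by unfold dm; infer_instance

lemma dm_singleton (κ : Par) (n : ℤ) : dm κ {n} = ENNReal.ofReal (cm κ n) :=
  PMF.toMeasure_apply_singleton _ _ (measurableSet_singleton n)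

lemma dm_char_zero (κ : Par) {t : ℝ} {l : ℤ} (h1 : l + 2 * (κ : ℝ) ≤ t)
    (h2 : t ≤ l + 1 - 2 * (κ : ℝ)) : ∫ n : ℤ, ee (t * n) ∂(dm κ) = 0 := by
  have hint : Integrable (fun n : ℤ => ee (t * n)) (dm κ) :=
    Integrable.of_bound (C := 1) (Measurable.of_discrete.aestronglyMeasurable) (Eventually.of_forall fun n => by rw [norm_ee])
  unfold dm at *
  rw [PMF.integral_eq_tsum _ _ hint]
  have h := sc_four_gap κ.2.1 (t := t - l) (by linarith) (by linarith)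
  have h' := h.mul_left ((3 * (κ : ℝ) / 2 : ℝ) : ℂ)
  rw [mul_zero] at h'
  rw [← h'.tsum_eq]
  congr 1
  funext n
  have e : ee (t * n) = ee (n * (t - l)) := by
    have : t * n = n * (t - l) + ((n * l : ℤ) : ℝ) := by push_cast; ring
    rw [this, ee_add, ee_int, mul_one]
  have e2 : ((dl κ) n).toReal = cm κ n := ENNReal.toReal_ofReal (cm_nonneg κ.2.1 n)
  rw [e, e2]
  unfold cm
  rw [Complex.real_smul]
  push_cast
  ring

lemma sqrt_cm {κ : ℝ} (h : 0 < κ) (n : ℤ) : √(cm κ n) = √(3 * κ / 2) * (sc κ n) ^ 2 := by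
  unfold cm
  rw [Real.sqrt_mul (by positivity), show (sc κ n) ^ 4 = ((sc κ n) ^ 2) ^ 2 by ring,
    Real.sqrt_sq (by positivity)]

lemma dm_inv_sqrt (κ : Par) :
    ∫⁻ n : ℤ, (ENNReal.ofReal (√(cm κ n)))⁻¹ ∂(dm κ) ≤ ENNReal.ofReal (√(3 / (2 * κ))) := by
  rw [lintegral_countable']
  have hs : HasSum (fun n : ℤ => √(cm κ n)) (√(3 / (2 * κ))) := by
    have h := (sc_two_tot κ.2.1 κ.2.2).mul_left (√(3 * (κ : ℝ) / 2))
    have h0 : 0 < (κ : ℝ) := κ.2.1
    refine hs_congrR h (fun n => sqrt_cm κ.2.1 n) ?_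
    · rw [show (3 : ℝ) / (2 * κ) = (3 * κ / 2) * (1 / κ) ^ 2 by field_simp,
        Real.sqrt_mul (by positivity), Real.sqrt_sq (by positivity)]
  rw [← hs.tsum_eq, ENNReal.ofReal_tsum_of_nonneg (fun n => Real.sqrt_nonneg _) hs.summable]
  refine ENNReal.tsum_le_tsum (fun n => ?_)
  rw [dm_singleton]
  have hc := cm_nonneg κ.2.1 n
  rcases hc.eq_or_lt with h | h
  · rw [← h]; simp
  · have h1 : 0 < √(cm κ n) := Real.sqrt_pos.2 h
    have h2 : ENNReal.ofReal (cm κ n) = ENNReal.ofReal (√(cm κ n)) * ENNReal.ofReal (√(cm κ n)) := by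
      rw [← ENNReal.ofReal_mul h1.le, Real.mul_self_sqrt hc]
    rw [h2, ← mul_assoc, ENNReal.inv_mul_cancel (by simpa using h1) ENNReal.ofReal_ne_top, one_mul]

lemma dm_abs (κ : Par) :
    ∫⁻ n : ℤ, ENNReal.ofReal |(n : ℝ)| ∂(dm κ) ≤ ENNReal.ofReal (1 / κ) := by
  rw [lintegral_countable']
  have h0 : 0 < (κ : ℝ) := κ.2.1
  have h := sc_two_tot κ.2.1 κ.2.2
  rw [← h.tsum_eq, ENNReal.ofReal_tsum_of_nonneg (fun n => by positivity) h.summable]
  refine ENNReal.tsum_le_tsum (fun n => ?_)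
  rw [dm_singleton, ← ENNReal.ofReal_mul (abs_nonneg _)]
  apply ENNReal.ofReal_le_ofReal
  unfold cm
  by_cases hn : n = 0
  · subst hn; simp [sc_zero]
  have hnR : (n : ℝ) ≠ 0 := by exact_mod_cast hn
  have hsc1 : |sc κ n| ≤ 1 := by unfold sc; exact Real.abs_sinc_le_one _
  have hkey : |(n : ℝ)| * |sc κ n| ≤ 1 / (π * κ) := by
    rw [sc_ne h0.ne' hn, abs_div, abs_mul, abs_mul, abs_of_pos h0, abs_of_pos Real.pi_pos]
    have hna : 0 < |(n : ℝ)| := abs_pos.2 hnR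
    have hp := Real.pi_pos
    rw [mul_div_assoc', div_le_div_iff₀ (by positivity) (by positivity)]
    have := Real.abs_sin_le_one (π * (κ * n))
    nlinarith [mul_pos hp h0, mul_pos (mul_pos hp h0) hna]
  have hpi : 3 < π := Real.pi_gt_three
  have e : |(n : ℝ)| * (3 * κ / 2 * sc κ n ^ 4)
      = (3 * κ / 2) * (|(n : ℝ)| * |sc κ n|) * |sc κ n| * sc κ n ^ 2 := by
    have : sc κ n ^ 4 = |sc κ n| * |sc κ n| * sc κ n ^ 2 := by
      rw [abs_mul_abs_self]; ring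
    rw [this]; ring
  rw [e]
  have h3 : (3 * (κ : ℝ) / 2) * (|(n : ℝ)| * |sc κ n|) * |sc κ n| ≤ 1 := by
    calc (3 * (κ : ℝ) / 2) * (|(n : ℝ)| * |sc κ n|) * |sc κ n|
        ≤ (3 * (κ : ℝ) / 2) * (1 / (π * κ)) * 1 := by gcongr
      _ = 3 / (2 * π) := by field_simp
      _ ≤ 1 := by rw [div_le_one (by positivity)]; linarith
  calc _ ≤ 1 * sc κ n ^ 2 := by gcongr
    _ = _ := one_mul _

end

end H78R3.LF
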