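import Pool.Agent.H78R3.LF.Law

/-!
Product space of digits, the random series and its characteristic function.
-/

open MeasureTheory Set Filter Topology ProbabilityTheory
open scoped ENNReal NNReal Real

namespace H78R3.LF

noncomputable section

/-- index set of digits: coordinate and position -/
abbrev Idx (A : ℕ) := Fin A × ℕ

/-- the law of all digits -/
def PP (A : ℕ) (κs : ℕ → Par) : Measure (Idx A → ℤ) :=
  Measure.infinitePi (fun i : Idx A => dm (κs i.2))

instance (A : ℕ) (κs : ℕ → Par) : IsProbabilityMeasure (PP A κs) := by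
  unfold PP; infer_instance

lemma PP_eval {A : ℕ} (κs : ℕ → Par) (i : Idx A) (g : ℤ → ℝ≥0∞) :
    ∫⁻ ω, g (ω i) ∂(PP A κs) = ∫⁻ n, g n ∂(dm (κs i.2)) := by
  have h := measurePreserving_eval_infinitePi (fun i : Idx A => dm (κs i.2)) i
  exact h.lintegral_comp (Measurable.of_discrete (f := g))

lemma PP_lint {A : ℕ} (κs : ℕ → Par) (s : Finset (Idx A)) (g : Idx A → ℤ → ℝ≥0∞) :
    ∫⁻ ω, ∏ i ∈ s, g i (ω i) ∂(PP A κs) = ∏ i ∈ s, ∫⁻ n, g i n ∂(dm (κs i.2)) := by
  have hind : iIndepFun (fun (i : Idx A) (ω : Idx A → ℤ) => g i (ω i)) (PP A κs) :=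
    iIndepFun_infinitePi (P := fun i : Idx A => dm (κs i.2)) (X := g)
      (fun i => Measurable.of_discrete)
  have h := lintegral_prod_eq_prod_lintegral_of_indepFun s (fun i (ω : Idx A → ℤ) => g i (ω i))
    hind (fun i => (Measurable.of_discrete (f := g i)).comp (measurable_pi_apply i))
  exact h.trans (Finset.prod_congr rfl fun i _ => PP_eval κs i (g i))

lemma PP_int {A : ℕ} (κs : ℕ → Par) (s : Finset (Idx A)) (f : Idx A → ℤ → ℂ) :
    ∫ ω, ∏ i ∈ s, f i (ω i) ∂(PP A κs) = ∏ i ∈ s, ∫ n, f i n ∂(dm (κs i.2)) := by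
  have h1 : ∀ ω : Idx A → ℤ, ∏ i ∈ s, f i (ω i)
      = (fun y : (i : s) → ℤ => ∏ i : s, f i (y i)) (s.restrict ω) := by
    intro ω
    simp only [Finset.restrict]
    rw [← Finset.prod_coe_sort]
  simp_rw [h1]
  unfold PP
  rw [integral_restrict_infinitePi (μ := fun i : Idx A => dm (κs i.2))
    (f := fun y : (i : s) → ℤ => ∏ i : s, f i (y i))
    (Measurable.aestronglyMeasurable (Finset.measurable_prod _ fun i _ =>
      (Measurable.of_discrete (f := f i)).comp (measurable_pi_apply i)))]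
  rw [integral_fintype_prod_eq_prod (f := fun (i : s) => f i)]
  exact Finset.prod_coe_sort s (fun i => ∫ n, f i n ∂(dm (κs i.2)))

/-- random coordinate -/
def XX {A : ℕ} (b : ℝ) (i : Fin A) (ω : Idx A → ℤ) : ℝ := ∑' j : ℕ, b ^ j * (ω (i, j) : ℝ)

lemma measurable_XX {A : ℕ} (b : ℝ) (i : Fin A) : Measurable (XX b i) := by
  unfold XX
  refine Measurable.tsum fun j => ?_
  exact ((Measurable.of_discrete (f := fun n : ℤ => (n : ℝ))).comp
    (measurable_pi_apply (i, j))).const_mul _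

/-- tail of the absolute series -/
def TT {A : ℕ} (b : ℝ) (J : ℕ) (i : Fin A) (ω : Idx A → ℤ) : ℝ≥0∞ :=
  ∑' j : ℕ, ENNReal.ofReal (b ^ (J + 1 + j) * |(ω (i, J + 1 + j) : ℝ)|)

lemma measurable_TT {A : ℕ} (b : ℝ) (J : ℕ) (i : Fin A) : Measurable (TT b J i) := by
  unfold TT
  refine Measurable.tsum fun j => ?_
  exact (Measurable.of_discrete (f := fun n : ℤ =>
    ENNReal.ofReal (b ^ (J + 1 + j) * |(n : ℝ)|))).comp (measurable_pi_apply (i, J + 1 + j))

/-- parameters: `ρ` at position `0`, `κ` afterwards -/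
def kap (ρ κ : Par) : ℕ → Par
  | 0 => ρ
  | _ + 1 => κ

lemma lint_TT {A : ℕ} (ρ κ : Par) {b : ℝ} (hb : 0 < b) (hb2 : b ≤ 1 / 2) (J : ℕ) (i : Fin A) :
    ∫⁻ ω, TT b J i ω ∂(PP A (kap ρ κ)) ≤ ENNReal.ofReal (b ^ J / κ) := by
  unfold TT
  have hk : 0 < (κ : ℝ) := κ.2.1
  rw [lintegral_tsum]
  swap
  · intro j
    exact ((Measurable.of_discrete (f := fun n : ℤ =>
      ENNReal.ofReal (b ^ (J + 1 + j) * |(n : ℝ)|))).comp
        (measurable_pi_apply (i, J + 1 + j))).aemeasurable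
  have h1 : ∀ j : ℕ, ∫⁻ ω, ENNReal.ofReal (b ^ (J + 1 + j) * |(ω (i, J + 1 + j) : ℝ)|)
      ∂(PP A (kap ρ κ)) ≤ ENNReal.ofReal (b ^ (J + 1) / κ * b ^ j) := by
    intro j
    rw [PP_eval (kap ρ κ) (i, J + 1 + j)
      (fun n : ℤ => ENNReal.ofReal (b ^ (J + 1 + j) * |(n : ℝ)|))]
    have e : (kap ρ κ) ((i, J + 1 + j) : Idx A).2 = κ := by
      show kap ρ κ (J + 1 + j) = κ
      rw [show J + 1 + j = (J + j) + 1 by ring]
      rfl
    rw [e]
    simp_rw [ENNReal.ofReal_mul (pow_nonneg hb.le (J + 1 + j))]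
    rw [lintegral_const_mul _ Measurable.of_discrete]
    calc _ ≤ ENNReal.ofReal (b ^ (J + 1 + j)) * ENNReal.ofReal (1 / κ) := by
          gcongr; exact dm_abs κ
      _ = _ := by
          rw [← ENNReal.ofReal_mul (by positivity)]
          congr 1
          rw [pow_add b (J + 1) j]
          field_simp
  refine (ENNReal.tsum_le_tsum h1).trans ?_
  have hg : Summable fun j : ℕ => b ^ (J + 1) / (κ : ℝ) * b ^ j :=
    (summable_geometric_of_lt_one hb.le (by linarith)).mul_left _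
  rw [← ENNReal.ofReal_tsum_of_nonneg (fun j => by positivity) hg]
  apply ENNReal.ofReal_le_ofReal
  rw [tsum_mul_left, tsum_geometric_of_lt_one hb.le (by linarith)]
  have h2 : (1 - b)⁻¹ ≤ 2 := by
    rw [inv_le_comm₀ (by linarith) (by norm_num)]; linarith
  calc b ^ (J + 1) / (κ : ℝ) * (1 - b)⁻¹ ≤ b ^ (J + 1) / (κ : ℝ) * 2 := by gcongr
    _ = b ^ J / κ * (2 * b) := by rw [pow_succ]; ring
    _ ≤ b ^ J / κ * 1 := by gcongr; linarith
    _ = _ := mul_one _

/-- if the tail is finite, the coordinate series converges and is approximated by the partial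
sum -/
lemma XX_approx {A : ℕ} {b : ℝ} (hb : 0 < b) (J : ℕ) (i : Fin A) (ω : Idx A → ℤ) {W : ℝ}
    (h : TT b J i ω ≤ ENNReal.ofReal W) (hW : 0 ≤ W) :
    |XX b i ω - ∑ j ∈ Finset.range (J + 1), b ^ j * (ω (i, j) : ℝ)| ≤ W := by
  have hs1 : Summable fun j : ℕ => b ^ (J + 1 + j) * |(ω (i, J + 1 + j) : ℝ)| := by
    have hne : TT b J i ω ≠ ∞ := ne_top_of_le_ne_top ENNReal.ofReal_ne_top h
    unfold TT at hne
    have := ENNReal.summable_toReal hne
    refine this.congr fun j => ?_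
    rw [ENNReal.toReal_ofReal (by positivity)]
  have hs2 : Summable fun j : ℕ => b ^ (J + 1 + j) * (ω (i, J + 1 + j) : ℝ) := by
    refine Summable.of_norm ?_
    refine hs1.congr fun j => ?_
    rw [norm_mul, Real.norm_eq_abs, Real.norm_eq_abs, abs_of_pos (pow_pos hb _)]
  have hs3 : Summable fun j : ℕ => b ^ j * (ω (i, j) : ℝ) := by
    rw [← summable_nat_add_iff (J + 1)]
    refine hs2.congr fun j => ?_
    rw [add_comm (J + 1) j]
  have e : XX b i ω - ∑ j ∈ Finset.range (J + 1), b ^ j * (ω (i, j) : ℝ)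
      = ∑' j : ℕ, b ^ (J + 1 + j) * (ω (i, J + 1 + j) : ℝ) := by
    unfold XX
    rw [← hs3.sum_add_tsum_nat_add (J + 1)]
    simp only [add_sub_cancel_left]
    refine tsum_congr fun j => ?_
    rw [add_comm (J + 1) j]
  rw [e]
  have h1 : |∑' j : ℕ, b ^ (J + 1 + j) * (ω (i, J + 1 + j) : ℝ)|
      ≤ ∑' j : ℕ, b ^ (J + 1 + j) * |(ω (i, J + 1 + j) : ℝ)| := by
    have := norm_tsum_le_tsum_norm (f := fun j : ℕ => b ^ (J + 1 + j) * (ω (i, J + 1 + j) : ℝ))
      (by
        refine hs1.congr fun j => ?_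
        rw [norm_mul, Real.norm_eq_abs, Real.norm_eq_abs, abs_of_pos (pow_pos hb _)])
    rw [Real.norm_eq_abs] at this
    refine this.trans (le_of_eq (tsum_congr fun j => ?_))
    rw [norm_mul, Real.norm_eq_abs, Real.norm_eq_abs, abs_of_pos (pow_pos hb _)]
  refine h1.trans ?_
  unfold TT at h
  rw [← ENNReal.ofReal_tsum_of_nonneg (fun j => by positivity) hs1] at h
  exact (ENNReal.ofReal_le_ofReal_iff hW).1 h

/-- almost surely all coordinate series converge -/
lemma ae_hasSum {A : ℕ} (ρ κ : Par) {b : ℝ} (hb : 0 < b) (hb2 : b ≤ 1 / 2) :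
    ∀ᵐ ω ∂(PP A (kap ρ κ)), ∀ i : Fin A,
      Tendsto (fun n : ℕ => ∑ j ∈ Finset.range n, b ^ j * (ω (i, j) : ℝ)) atTop
        (𝓝 (XX b i ω)) := by
  rw [ae_all_iff]
  intro i
  have h := lint_TT ρ κ hb hb2 0 i
  have hlt : ∫⁻ ω, TT b 0 i ω ∂(PP A (kap ρ κ)) ≠ ∞ := ne_top_of_le_ne_top ENNReal.ofReal_ne_top h
  have hae := ae_lt_top (measurable_TT b 0 i) hlt
  filter_upwards [hae] with ω hω
  have hne : TT b 0 i ω ≠ ∞ := hω.ne
  have hs1 : Summable fun j : ℕ => b ^ (0 + 1 + j) * |(ω (i, 0 + 1 + j) : ℝ)| := by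
    unfold TT at hne
    have := ENNReal.summable_toReal hne
    refine this.congr fun j => ?_
    rw [ENNReal.toReal_ofReal (by positivity)]
  have hs3 : Summable fun j : ℕ => b ^ j * (ω (i, j) : ℝ) := by
    rw [← summable_nat_add_iff (0 + 1)]
    refine Summable.of_norm ?_
    refine hs1.congr fun j => ?_
    rw [norm_mul, Real.norm_eq_abs, Real.norm_eq_abs, abs_of_pos (pow_pos hb _),
      add_comm (0 + 1) j]
  exact hs3.hasSum.tendsto_sum_nat

/-- vanishing of the characteristic function -/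
lemma char_zero {A : ℕ} (ρ κ : Par) {b : ℝ} (hb : 0 < b) (hb2 : b ≤ 1 / 2) (θ : Fin A → ℝ)
    (i₀ : Fin A) (j₀ : ℕ) (l : ℤ) (h1 : l + 2 * (kap ρ κ j₀ : ℝ) ≤ θ i₀ * b ^ j₀)
    (h2 : θ i₀ * b ^ j₀ ≤ l + 1 - 2 * (kap ρ κ j₀ : ℝ)) :
    ∫ ω, ee (∑ i, θ i * XX b i ω) ∂(PP A (kap ρ κ)) = 0 := by
  have hlim : Tendsto (fun n : ℕ => ∫ ω : Idx A → ℤ,
      ee (∑ i, θ i * ∑ j ∈ Finset.range n, b ^ j * (ω (i, j) : ℝ)) ∂(PP A (kap ρ κ))) atTop
      (𝓝 (∫ ω, ee (∑ i, θ i * XX b i ω) ∂(PP A (kap ρ κ)))) := by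
    refine tendsto_integral_of_dominated_convergence (fun _ => 1) ?_ (integrable_const _) ?_ ?_
    · intro n
      refine (continuous_ee.measurable.comp ?_).aestronglyMeasurable
      refine Finset.measurable_sum _ fun i _ => ?_
      refine Measurable.const_mul ?_ _
      refine Finset.measurable_sum _ fun j _ => ?_
      exact ((Measurable.of_discrete (f := fun n : ℤ => (n : ℝ))).comp
        (measurable_pi_apply (i, j))).const_mul _
    · intro n
      exact Eventually.of_forall fun ω => by rw [norm_ee]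
    · filter_upwards [ae_hasSum ρ κ hb hb2] with ω hω
      refine (continuous_ee.tendsto _).comp ?_
      exact tendsto_finsetSum _ fun i _ => (hω i).const_mul _
  have hz : ∀ n : ℕ, j₀ < n → ∫ ω : Idx A → ℤ,
      ee (∑ i, θ i * ∑ j ∈ Finset.range n, b ^ j * (ω (i, j) : ℝ)) ∂(PP A (kap ρ κ)) = 0 := by
    intro n hn
    have e : ∀ ω : Idx A → ℤ, ee (∑ i, θ i * ∑ j ∈ Finset.range n, b ^ j * (ω (i, j) : ℝ))
        = ∏ p ∈ (Finset.univ : Finset (Fin A)) ×ˢ Finset.range n,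
          (fun (p : Idx A) (k : ℤ) => ee (θ p.1 * b ^ p.2 * k)) p (ω p) := by
      intro ω
      rw [← ee_sum, Finset.sum_product]
      congr 1
      refine Finset.sum_congr rfl fun i _ => ?_
      rw [Finset.mul_sum]
      exact Finset.sum_congr rfl fun j _ => by ring
    refine (integral_congr_ae (Eventually.of_forall e)).trans ?_
    refine (PP_int (kap ρ κ) _ (fun (p : Idx A) (k : ℤ) => ee (θ p.1 * b ^ p.2 * k))).trans ?_
    apply Finset.prod_eq_zero (i := (i₀, j₀))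
    · simp [hn]
    · exact dm_char_zero _ h1 h2
  refine tendsto_nhds_unique hlim ?_
  refine tendsto_const_nhds.congr' ?_
  filter_upwards [eventually_gt_atTop j₀] with n hn
  exact (hz n hn).symm

end

end H78R3.LF
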