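import Pool.Agent.H78R3.LF.Dim

/-!
The spectrum of the random vector, after a small shift, avoids an open cone.
-/

open MeasureTheory Set Filter Topology ProbabilityTheory
open scoped ENNReal NNReal Real

namespace H78R3.LF

noncomputable section

/-- one-dimensional structure of the spectrum -/
lemma spec_one {ρ κ : Par} (hρκ : (ρ : ℝ) ≤ κ) {b : ℝ} (hb : 0 < b) (hb1 : b < 1) {t : ℝ}
    (h : ∀ (j : ℕ) (l : ℤ), ¬ (l + 2 * (kap ρ κ j : ℝ) ≤ t * b ^ j ∧
      t * b ^ j ≤ l + 1 - 2 * (kap ρ κ j : ℝ))) :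
    t < 2 * ρ ∨ ∃ j : ℕ, 1 - 2 * (κ : ℝ) ≤ t * b ^ j ∧ t * b ^ j * b < 2 * κ := by
  by_cases h1 : t < 1 - 2 * (κ : ℝ)
  · left
    by_contra hc
    push Not at hc
    apply h 0 0
    have e : kap ρ κ 0 = ρ := rfl
    rw [e, pow_zero, mul_one]
    push_cast
    constructor <;> linarith
  · right
    push Not at h1
    have hk : 0 < 1 - 2 * (κ : ℝ) := by linarith [κ.2.2]
    have hex : ∃ j : ℕ, t * b ^ (j + 1) < 1 - 2 * (κ : ℝ) := by
      have ht : Tendsto (fun j : ℕ => t * b ^ (j + 1)) atTop (𝓝 (t * 0)) :=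
        ((tendsto_pow_atTop_nhds_zero_of_lt_one hb.le hb1).comp (tendsto_add_atTop_nat 1)).const_mul t
      rw [mul_zero] at ht
      exact (ht.eventually (gt_mem_nhds hk)).exists
    classical
    have hmin := Nat.find_spec hex
    set j := Nat.find hex with hj
    refine ⟨j, ?_, ?_⟩
    · rcases Nat.eq_zero_or_pos j with h0 | h0
      · rw [h0, pow_zero, mul_one]; exact h1
      · have := Nat.find_min hex (m := j - 1) (by omega)
        rw [show j - 1 + 1 = j by omega] at this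
        exact not_lt.1 this
    · by_contra hc
      push Not at hc
      apply h (j + 1) 0
      have e : kap ρ κ (j + 1) = κ := rfl
      rw [e]
      push_cast
      constructor
      · rw [pow_succ]; linarith
      · linarith

/-- the set of admissible sizes of a coordinate -/
def Kset (n : ℕ) : Set ℝ := {x | ∃ j : ℤ, 1 / 2 ≤ x * ((n : ℝ) ^ 2) ^ j ∧
  x * ((n : ℝ) ^ 2) ^ j ≤ n / 4}

lemma spec_shift {n : ℕ} (hn : 8 ≤ n) {ρ κ : Par} (hρ : (ρ : ℝ) = 1 / (4 * (n : ℝ) ^ 2))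
    (hκ : (κ : ℝ) = 1 / (16 * n)) {x : ℝ}
    (h : ∀ (j : ℕ) (l : ℤ), ¬ (l + 2 * (kap ρ κ j : ℝ) ≤ (1 / (n : ℝ) ^ 2 - x) * (1 / (n : ℝ) ^ 2) ^ j
      ∧ (1 / (n : ℝ) ^ 2 - x) * (1 / (n : ℝ) ^ 2) ^ j ≤ l + 1 - 2 * (kap ρ κ j : ℝ))) :
    |x| ∈ Kset n := by
  have hn' : (8 : ℝ) ≤ n := by exact_mod_cast hn
  have hn0 : (0 : ℝ) < n := by linarith
  have hn2 : (64 : ℝ) ≤ (n : ℝ) ^ 2 := by nlinarith
  set b : ℝ := 1 / (n : ℝ) ^ 2 with hbdef
  have hb : 0 < b := by positivity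
  have hb64 : b ≤ 1 / 64 := by
    rw [hbdef]; exact one_div_le_one_div_of_le (by norm_num) hn2
  have hρb : (ρ : ℝ) = b / 4 := by rw [hρ, hbdef]; field_simp
  have hκn : (κ : ℝ) * n = 1 / 16 := by rw [hκ]; field_simp
  have hκ8 : (κ : ℝ) ≤ 1 / 128 := by
    rw [hκ]; exact one_div_le_one_div_of_le (by norm_num) (by linarith)
  have hbn : b * n ≤ 1 / 8 := by
    rw [hbdef]; 
    have : 1 / (n : ℝ) ^ 2 * n = 1 / n := by field_simp
    rw [this]; exact one_div_le_one_div_of_le (by norm_num) hn'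
  have hρκ : (ρ : ℝ) ≤ κ := by
    rw [hρ, hκ]
    apply one_div_le_one_div_of_le (by positivity)
    nlinarith
  -- symmetric version
  have habs : ∀ (j : ℕ) (l : ℤ), ¬ (l + 2 * (kap ρ κ j : ℝ) ≤ |b - x| * b ^ j ∧
      |b - x| * b ^ j ≤ l + 1 - 2 * (kap ρ κ j : ℝ)) := by
    intro j l hjl
    rcases abs_cases (b - x) with ⟨e, _⟩ | ⟨e, _⟩
    · rw [e] at hjl; exact h j l hjl
    · rw [e] at hjl
      apply h j (-l - 1)
      push_cast
      constructor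
      · linarith [hjl.2]
      · linarith [hjl.1]
  have key := spec_one hρκ hb (by linarith) habs
  have hx1 : |x| ≤ |b - x| + b := by
    have := abs_sub_abs_le_abs_sub x b
    rw [abs_of_pos hb, abs_sub_comm] at this
    linarith
  have hx2 : |b - x| - b ≤ |x| := by
    have := abs_sub_abs_le_abs_sub (b - x) b
    rw [abs_of_pos hb, show b - x - b = -x by ring, abs_neg] at this
    linarith
  have hx3 : b - |b - x| ≤ |x| := by
    have := abs_sub_abs_le_abs_sub b (b - x)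
    rw [abs_of_pos hb, show b - (b - x) = x by ring] at this
    linarith
  have hMb : (n : ℝ) ^ 2 * b = 1 := by rw [hbdef]; field_simp
  rcases key with h1 | ⟨j, hj1, hj2⟩
  · refine ⟨1, ?_, ?_⟩
    · rw [zpow_one]
      have : b / 2 ≤ |x| := by rw [hρb] at h1; linarith
      calc (1 : ℝ) / 2 = (b / 2) * (n : ℝ) ^ 2 := by linarith
        _ ≤ _ := by gcongr
    · rw [zpow_one]
      have : |x| ≤ 3 * b / 2 := by rw [hρb] at h1; linarith
      calc |x| * (n : ℝ) ^ 2 ≤ (3 * b / 2) * (n : ℝ) ^ 2 := by gcongr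
        _ = 3 / 2 := by linarith
        _ ≤ _ := by linarith
  · have hbj : b ^ j = ((n : ℝ) ^ 2) ^ (-(j : ℤ)) := by
      rw [zpow_neg, zpow_natCast, hbdef, one_div, inv_pow]
    have hbj0 : 0 < b ^ j := by positivity
    have hbj1 : b ^ j ≤ 1 := pow_le_one₀ hb.le (by linarith)
    refine ⟨-(j : ℤ), ?_, ?_⟩
    · rw [← hbj]
      calc (1 : ℝ) / 2 ≤ |b - x| * b ^ j - b * 1 := by linarith
        _ ≤ |b - x| * b ^ j - b * b ^ j := by gcongr
        _ = (|b - x| - b) * b ^ j := by ring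
        _ ≤ _ := by gcongr
    · rw [← hbj]
      have h3 : |b - x| * b ^ j ≤ n / 8 := by
        have e : |b - x| * b ^ j = |b - x| * b ^ j * b * (n : ℝ) ^ 2 := by
          rw [mul_assoc (|b - x| * b ^ j), mul_comm b, hMb, mul_one]
        rw [e]
        calc |b - x| * b ^ j * b * (n : ℝ) ^ 2 ≤ 2 * κ * (n : ℝ) ^ 2 := by gcongr
          _ = 2 * ((κ : ℝ) * n) * n := by ring
          _ = n / 8 := by rw [hκn]; ring
      calc |x| * b ^ j ≤ (|b - x| + b) * b ^ j := by gcongr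
        _ = |b - x| * b ^ j + b * b ^ j := by ring
        _ ≤ n / 8 + b * 1 := by gcongr
        _ ≤ n / 4 := by linarith

/-- the forbidden open cone -/
def UU (A d n : ℕ) : Set (Rd d) :=
  {ξ | ∃ i j : Fin d, (i : ℕ) < A ∧ (j : ℕ) < A ∧ ∃ l : ℤ,
    |ξ i| * (n / 2 * ((n : ℝ) ^ 2) ^ l) < |ξ j| ∧ |ξ j| < |ξ i| * (2 * n * ((n : ℝ) ^ 2) ^ l)}

lemma isOpen_UU (A d n : ℕ) : IsOpen (UU A d n) := by
  have : UU A d n = ⋃ i : Fin d, ⋃ j : Fin d, ⋃ _ : (i : ℕ) < A, ⋃ _ : (j : ℕ) < A, ⋃ l : ℤ,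
      ({ξ : Rd d | |ξ i| * (n / 2 * ((n : ℝ) ^ 2) ^ l) < |ξ j|} ∩
        {ξ : Rd d | |ξ j| < |ξ i| * (2 * n * ((n : ℝ) ^ 2) ^ l)}) := by
    ext ξ
    simp only [UU, mem_ofPred_eq, mem_iUnion, mem_inter_iff, exists_prop]
  rw [this]
  refine isOpen_iUnion fun i => isOpen_iUnion fun j => isOpen_iUnion fun _ => isOpen_iUnion fun _ =>
    isOpen_iUnion fun l => IsOpen.inter ?_ ?_
  · exact isOpen_lt (by fun_prop) (by fun_prop)
  · exact isOpen_lt (by fun_prop) (by fun_prop)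

lemma smul_mem_UU {A d n : ℕ} {ξ : Rd d} (h : ξ ∈ UU A d n) {c : ℝ} (hc : c ≠ 0) :
    c • ξ ∈ UU A d n := by
  obtain ⟨i, j, hi, hj, l, h1, h2⟩ := h
  have hc' : 0 < |c| := abs_pos.2 hc
  refine ⟨i, j, hi, hj, l, ?_, ?_⟩
  · simp only [PiLp.smul_apply, smul_eq_mul, abs_mul]
    calc |c| * |ξ i| * (n / 2 * ((n : ℝ) ^ 2) ^ l) = |c| * (|ξ i| * (n / 2 * ((n : ℝ) ^ 2) ^ l)) := by
          ring
      _ < |c| * |ξ j| := by gcongr
  · simp only [PiLp.smul_apply, smul_eq_mul, abs_mul]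
    calc |c| * |ξ j| < |c| * (|ξ i| * (2 * n * ((n : ℝ) ^ 2) ^ l)) := by gcongr
      _ = _ := by ring

/-- vectors all of whose active coordinates have admissible sizes are not in the cone -/
lemma notMem_UU {A d n : ℕ} (hn : 8 ≤ n) {ξ : Rd d}
    (h : ∀ i : Fin d, (i : ℕ) < A → |ξ i| ∈ Kset n) : ξ ∉ UU A d n := by
  rintro ⟨i, j, hi, hj, l, h1, h2⟩
  obtain ⟨p, hp1, hp2⟩ := h i hi
  obtain ⟨q, hq1, hq2⟩ := h j hj
  have hn' : (8 : ℝ) ≤ n := by exact_mod_cast hn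
  have hn0 : (0 : ℝ) < n := by linarith
  set M : ℝ := (n : ℝ) ^ 2 with hM
  have hM0 : 0 < M := by positivity
  have hM1 : 1 ≤ M := by rw [hM]; nlinarith
  set x := |ξ i| * M ^ p with hx
  set y := |ξ j| * M ^ q with hy
  have hxi : |ξ i| = x * M ^ (-p) := by
    rw [hx, mul_assoc, ← zpow_add₀ hM0.ne']; simp
  have hyj : |ξ j| = y * M ^ (-q) := by
    rw [hy, mul_assoc, ← zpow_add₀ hM0.ne']; simp
  rw [hxi, hyj] at h1 h2
  have hMp : 0 < M ^ (-p) := by positivity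
  have hMq : 0 < M ^ (-q) := by positivity
  -- compare exponents
  have e1 : ∀ c : ℝ, x * M ^ (-p) * (c * M ^ l) = (x * c * M ^ (l - p + q)) * M ^ (-q) := by
    intro c
    have : M ^ (l - p + q) * M ^ (-q) = M ^ (-p) * M ^ l := by
      rw [← zpow_add₀ hM0.ne', ← zpow_add₀ hM0.ne']; congr 1; ring
    calc x * M ^ (-p) * (c * M ^ l) = x * c * (M ^ (-p) * M ^ l) := by ring
      _ = _ := by rw [← this]; ring
  rw [e1] at h1 h2
  have h1' : x * (n / 2) * M ^ (l - p + q) < y := lt_of_mul_lt_mul_right h1 hMq.le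
  have h2' : y < x * (2 * n) * M ^ (l - p + q) := lt_of_mul_lt_mul_right h2 hMq.le
  rcases le_or_gt 0 (l - p + q) with hk | hk
  · have : 1 ≤ M ^ (l - p + q) := one_le_zpow₀ hM1 hk
    have h3 : (n : ℝ) / 4 ≤ x * (n / 2) * M ^ (l - p + q) := by
      calc (n : ℝ) / 4 = 1 / 2 * (n / 2) * 1 := by ring
        _ ≤ _ := by gcongr
    linarith
  · have hk' : l - p + q ≤ -1 := by omega
    have : M ^ (l - p + q) ≤ M ^ (-1 : ℤ) := zpow_le_zpow_right₀ hM1 hk'
    have h4 : M ^ (-1 : ℤ) = 1 / (n : ℝ) ^ 2 := by rw [zpow_neg_one, hM, one_div]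
    rw [h4] at this
    have h3 : x * (2 * n) * M ^ (l - p + q) ≤ 1 / 2 := by
      calc x * (2 * n) * M ^ (l - p + q) ≤ (n / 4) * (2 * n) * (1 / (n : ℝ) ^ 2) := by gcongr
        _ = 1 / 2 := by field_simp; norm_num
    linarith

end

end H78R3.LF
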